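import Mathlib

set_option autoImplicit false

namespace Pool.Agent.H969Z.Circ

open Finset Filter Topology

/-- A coefficient vector supported below `l` whose polynomial vanishes at `l` distinct points is zero. -/
lemma vand {n : ℕ} (l : ℕ) (c : Fin n → ℂ) (hc : ∀ d : Fin n, l ≤ (d : ℕ) → c d = 0)
    (T : Finset ℂ) (hT : l ≤ T.card) (h : ∀ z ∈ T, ∑ d : Fin n, c d * z ^ (d : ℕ) = 0) :
    ∀ d, c d = 0 := by
  classical
  set q : Polynomial ℂ := ∑ d : Fin n, Polynomial.monomial (d : ℕ) (c d) with hq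
  have hcoeff : ∀ d : Fin n, q.coeff d = c d := by
    intro d
    rw [hq, Polynomial.finsetSum_coeff]
    simp only [Polynomial.coeff_monomial]
    rw [Finset.sum_eq_single d]
    · simp
    · intro b _ hb
      have : (b : ℕ) ≠ d := fun h => hb (Fin.ext h)
      simp [this]
    · simp
  have hdeg : q.degree < (T.card : ℕ) := by
    refine lt_of_lt_of_le (b := (l : WithBot ℕ)) ?_ (by exact_mod_cast hT)
    rw [Polynomial.degree_lt_iff_coeff_zero]
    intro m hm
    rw [hq, Polynomial.finsetSum_coeff]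
    refine Finset.sum_eq_zero fun d _ => ?_
    rw [Polynomial.coeff_monomial]
    split_ifs with h1
    · exact hc d (by omega)
    · rfl
  have hz : q = 0 := by
    refine Polynomial.eq_zero_of_degree_lt_of_eval_finset_eq_zero T hdeg fun z hz => ?_
    rw [hq, Polynomial.eval_finsetSum]
    simpa using h z hz
  intro d
  rw [← hcoeff d, hz, Polynomial.coeff_zero]

lemma pow_val_add {n : ℕ} [NeZero n] {z : ℂ} (hz : z ^ n = 1) (x y : Fin n) :
    z ^ ((x + y : Fin n) : ℕ) = z ^ (x : ℕ) * z ^ (y : ℕ) := by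
  rw [Fin.val_add, ← pow_add, ← pow_eq_pow_mod _ hz]

/-- The balanced word. -/
def chi (n k b : ℕ) : ℕ := (b + 1) * k / n - b * k / n

lemma chi_le_one {n k : ℕ} (hn : 0 < n) (hk : k ≤ n) (b : ℕ) : chi n k b ≤ 1 := by
  unfold chi
  have : (b + 1) * k / n ≤ b * k / n + 1 := by
    rw [← Nat.add_div_right _ hn]
    exact Nat.div_le_div_right (by nlinarith)
  omega

lemma chi_add {n k : ℕ} (hn : 0 < n) (b : ℕ) : chi n k (b + n) = chi n k b := by
  unfold chi
  have h1 : (b + n + 1) * k / n = (b + 1) * k / n + k := by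
    rw [← Nat.add_mul_div_left _ _ hn]; congr 1; ring
  have h2 : (b + n) * k / n = b * k / n + k := by
    rw [← Nat.add_mul_div_left _ _ hn]; congr 1; ring
  omega

lemma chi_mod {n k : ℕ} (hn : 0 < n) (b : ℕ) : chi n k (b % n) = chi n k b := by
  have : ∀ q r : ℕ, chi n k (r + n * q) = chi n k r := by
    intro q r
    induction q with
    | zero => simp
    | succ q ih => rw [Nat.mul_succ, ← add_assoc, chi_add hn, ih]
  conv_rhs => rw [← Nat.mod_add_div b n]
  exact (this _ _).symm

lemma chi_sum (n k s m : ℕ) :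
    ∑ j ∈ range m, chi n k (s + j) + s * k / n = (s + m) * k / n := by
  induction m with
  | zero => simp
  | succ m ih =>
    rw [Finset.sum_range_succ]
    have h1 : (s + m) * k / n ≤ (s + m + 1) * k / n := Nat.div_le_div_right (by nlinarith)
    have h2 : chi n k (s + m) = (s + m + 1) * k / n - (s + m) * k / n := rfl
    have h3 : s + (m + 1) = s + m + 1 := by ring
    rw [h3]
    omega

/-- The two frequency sets. -/
lemma exists_sets (n k t : ℕ) [NeZero n] (hk : k ≤ n) (ht : k * k ≤ n * t) :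
    ∃ B B' : Finset (Fin n), k ≤ B.card ∧ k ≤ B'.card ∧
      ∀ s : Fin n, (B'.filter fun b => s - b ∈ B).card ≤ t := by
  classical
  have hn : 0 < n := Nat.pos_of_ne_zero (NeZero.ne n)
  refine ⟨univ.filter fun a => ((-a : Fin n) : ℕ) < k, univ.filter fun b => chi n k b ≠ 0, ?_, ?_, ?_⟩
  · have : (univ.filter fun a : Fin n => ((-a : Fin n) : ℕ) < k).card
        = (univ.filter fun a : Fin n => (a : ℕ) < k).card := by
      refine Finset.card_bij (fun a _ => -a) ?_ ?_ ?_
      · intro a ha; simpa using ha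
      · intro a _ b _ h; exact neg_injective h
      · intro b hb; exact ⟨-b, by simpa using hb, by simp⟩
    rw [this, Fin.card_filter_val_lt]
    omega
  · have h1 := chi_sum n k 0 n
    simp only [zero_add, zero_mul, Nat.zero_div, add_zero] at h1
    rw [Nat.mul_div_cancel_left _ hn] at h1
    rw [Finset.sum_range (fun j => chi n k j)] at h1
    rw [Finset.card_filter]
    refine le_trans h1.ge (Finset.sum_le_sum fun b _ => ?_)
    have := chi_le_one hn hk (b : ℕ)
    split_ifs <;> omega
  · intro s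
    have h1 := chi_sum n k s k
    have h2 : ((s : ℕ) + k) * k / n ≤ (s : ℕ) * k / n + t := by
      rw [← Nat.add_mul_div_left _ _ hn]
      exact Nat.div_le_div_right (by nlinarith)
    have h3 : ∑ j ∈ range k, chi n k (s + j) ≤ t := by omega
    refine le_trans ?_ h3
    have h4 : ((range k).filter fun j => chi n k (s + j) ≠ 0).card ≤ ∑ j ∈ range k, chi n k (s + j) := by
      rw [Finset.card_filter]
      refine Finset.sum_le_sum fun b _ => ?_
      split_ifs <;> omega
    refine le_trans ?_ h4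
    refine Finset.card_le_card_of_injOn (fun b => ((b - s : Fin n) : ℕ)) ?_ ?_
    · intro b hb
      simp only [Finset.coe_filter, Finset.mem_filter, Finset.mem_univ, true_and, neg_sub,
        Set.mem_ofPred_eq, Finset.mem_range] at hb ⊢
      refine ⟨hb.2, ?_⟩
      have : (b : ℕ) = ((s : ℕ) + ((b - s : Fin n) : ℕ)) % n := by
        rw [← Fin.val_add]; simp
      rw [← chi_mod hn, ← this]
      exact hb.1
    · intro a _ b _ h
      have : a - s = b - s := Fin.ext h
      exact sub_left_injective this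

/-- The Fourier argument: a matrix supported on the band and orthogonal to the chosen characters vanishes. -/
lemma fourier_zero (n l t : ℕ) [NeZero n] (hlt : l + t ≤ n) {w : ℂ} (hw : IsPrimitiveRoot w n)
    (B B' : Finset (Fin n)) (hB : ∀ s : Fin n, (B'.filter fun b => s - b ∈ B).card ≤ t)
    (N : Fin n → Fin n → ℂ) (hN : ∀ i j, l ≤ ((j - i : Fin n) : ℕ) → N i j = 0)
    (h1 : ∀ a ∉ B, ∀ j, ∑ i, N i j * (w ^ (a : ℕ)) ^ (i : ℕ) = 0)
    (h2 : ∀ b ∉ B', ∀ i, ∑ j, N i j * (w ^ (b : ℕ)) ^ (j : ℕ) = 0) :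
    ∀ i j, N i j = 0 := by
  classical
  have hw1 : w ^ n = 1 := hw.pow_eq_one
  have hwp : ∀ a : ℕ, (w ^ a) ^ n = 1 := fun a => by rw [← pow_mul, mul_comm, pow_mul, hw1, one_pow]
  have hinj : Function.Injective fun b : Fin n => w ^ (b : ℕ) := by
    intro a b h
    exact Fin.ext (hw.pow_inj a.2 b.2 h)
  set D : Fin n → Fin n → ℂ := fun s d => ∑ i, N i (i + d) * (w ^ (s : ℕ)) ^ (i : ℕ) with hD
  have key : ∀ a b : Fin n, ∑ d, D (a + b) d * (w ^ (b : ℕ)) ^ (d : ℕ)
      = ∑ i, ∑ j, N i j * (w ^ (a : ℕ)) ^ (i : ℕ) * (w ^ (b : ℕ)) ^ (j : ℕ) := by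
    intro a b
    simp only [hD, Finset.sum_mul]
    rw [Finset.sum_comm]
    refine Finset.sum_congr rfl fun i _ => ?_
    rw [← Equiv.sum_comp (Equiv.addLeft i)
      (fun j => N i j * (w ^ (a : ℕ)) ^ (i : ℕ) * (w ^ (b : ℕ)) ^ (j : ℕ))]
    refine Finset.sum_congr rfl fun d _ => ?_
    simp only [Equiv.coe_addLeft]
    rw [pow_val_add hw1, pow_val_add (hwp b), mul_pow]
    ring
  have hDz : ∀ s d, D s d = 0 := by
    intro s
    refine vand l (D s) ?_ ((univ.filter fun b => ¬ (b ∈ B' ∧ s - b ∈ B)).image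
      fun b : Fin n => w ^ (b : ℕ)) ?_ ?_
    · intro d hd
      simp only [hD]
      refine Finset.sum_eq_zero fun i _ => ?_
      rw [hN i (i + d) (by simpa using hd), zero_mul]
    · rw [Finset.card_image_of_injective _ hinj]
      have h3 := Finset.card_filter_add_card_filter_not (s := (univ : Finset (Fin n)))
        (fun b => b ∈ B' ∧ s - b ∈ B)
      have h4 : (univ.filter fun b => b ∈ B' ∧ s - b ∈ B) = B'.filter fun b => s - b ∈ B := by
        ext b; simp
      rw [h4, Finset.card_univ, Fintype.card_fin] at h3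
      have := hB s
      omega
    · intro z hz
      obtain ⟨b, hb, rfl⟩ := Finset.mem_image.1 hz
      have hs : s = (s - b) + b := by simp
      have := key (s - b) b
      rw [← hs] at this
      rw [this]
      have hb' := (Finset.mem_filter.1 hb).2
      by_cases h5 : b ∈ B'
      · have h6 : s - b ∉ B := fun h => hb' ⟨h5, h⟩
        rw [Finset.sum_comm]
        refine Finset.sum_eq_zero fun j _ => ?_
        rw [← Finset.sum_mul, h1 _ h6 j, zero_mul]
      · refine Finset.sum_eq_zero fun i _ => ?_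
        have h7 : ∑ j, N i j * (w ^ ((s - b : Fin n) : ℕ)) ^ (i : ℕ) * (w ^ (b : ℕ)) ^ (j : ℕ)
            = (∑ j, N i j * (w ^ (b : ℕ)) ^ (j : ℕ)) * (w ^ ((s - b : Fin n) : ℕ)) ^ (i : ℕ) := by
          rw [Finset.sum_mul]
          exact Finset.sum_congr rfl fun j _ => by ring
        rw [h7, h2 b h5 i, zero_mul]
  have hfin : ∀ d i, N i (i + d) = 0 := by
    intro d
    refine vand n (fun i => N i (i + d)) (fun i hi => absurd i.2 (by omega))
      (univ.image fun b : Fin n => w ^ (b : ℕ)) ?_ ?_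
    · rw [Finset.card_image_of_injective _ hinj]; simp
    · intro z hz
      obtain ⟨b, -, rfl⟩ := Finset.mem_image.1 hz
      exact hDz b d
  intro i j
  have := hfin (j - i) i
  simpa using this

lemma exists_cover {n r : ℕ} [NeZero n] (B : Finset (Fin n)) (h : n ≤ B.card + r) :
    ∃ f : Fin r → Fin n, ∀ a ∉ B, ∃ c, f c = a := by
  classical
  have hc : Fintype.card (Bᶜ : Finset (Fin n)) ≤ Fintype.card (Fin r) := by
    rw [Fintype.card_coe, Finset.card_compl, Fintype.card_fin, Fintype.card_fin]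
    omega
  obtain ⟨g⟩ := Function.Embedding.nonempty_of_card_le hc
  refine ⟨fun c => if h : ∃ a, g a = c then (h.choose : Fin n) else 0, fun a ha => ?_⟩
  have ha' : a ∈ Bᶜ := Finset.mem_compl.2 ha
  refine ⟨g ⟨a, ha'⟩, ?_⟩
  have h1 : ∃ a', g a' = g ⟨a, ha'⟩ := ⟨_, rfl⟩
  simp only [dif_pos h1]
  rw [g.injective h1.choose_spec]

theorem main (n l r : ℕ) (hn : 1 ≤ n) (hl : l ≤ n) (hr : r ≤ n) (h : n * l ≤ r * (2 * n - r))
    (P : MvPolynomial {p : Fin n × Fin n // ((p.2 - p.1 : Fin n) : ℕ) < l} ℂ)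
    (hP : ∀ M : Matrix (Fin n) (Fin n) ℂ, M.rank ≤ r →
      MvPolynomial.eval (fun e => M e.1.1 e.1.2) P = 0) : P = 0 := by
  classical
  have : NeZero n := ⟨by omega⟩
  obtain ⟨k, hnrk⟩ := Nat.exists_eq_add_of_le hr
  obtain ⟨t, ht⟩ := Nat.exists_eq_add_of_le hl
  have hk : k * k ≤ n * t := by
    have e1 : 2 * n - r = r + 2 * k := by omega
    rw [e1] at h
    have e2 : n * n = n * (l + t) := by rw [← ht]
    have e3 : n * n = (r + k) * (r + k) := by rw [← hnrk]
    nlinarith
  obtain ⟨B, B', hB, hB', hBB⟩ := exists_sets n k t (by omega) hk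
  obtain ⟨α, hα⟩ := exists_cover (r := r) B (by omega)
  obtain ⟨β, hβ⟩ := exists_cover (r := r) B' (by omega)
  have hw := Complex.isPrimitiveRoot_exp n (NeZero.ne n)
  set w := Complex.exp (2 * Real.pi * Complex.I / n)
  let E := {p : Fin n × Fin n // ((p.2 - p.1 : Fin n) : ℕ) < l}
  let X := (Fin n → Fin r → ℂ) × (Fin n → Fin r → ℂ)
  let F : X → (E → ℂ) := fun x e => ∑ c, x.1 e.1.1 c * x.2 e.1.2 c
  let U : Fin n → Fin r → ℂ := fun i c => (w ^ (α c : ℕ)) ^ (i : ℕ)
  let V : Fin n → Fin r → ℂ := fun j c => (w ^ (β c : ℕ)) ^ (j : ℕ)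
  let L : X →ₗ[ℂ] (E → ℂ) :=
    { toFun := fun x e => ∑ c, (U e.1.1 c * x.2 e.1.2 c + V e.1.2 c * x.1 e.1.1 c)
      map_add' := by
        intro x y; funext e
        simp only [Pi.add_apply, ← Finset.sum_add_distrib, X, Prod.fst_add, Prod.snd_add]
        exact Finset.sum_congr rfl fun c _ => by ring
      map_smul' := by
        intro a x; funext e
        simp only [Pi.smul_apply, smul_eq_mul, Finset.mul_sum, X, Prod.smul_fst, Prod.smul_snd,
          RingHom.id_apply]
        exact Finset.sum_congr rfl fun c _ => by ring }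
  have hF : HasStrictFDerivAt F (LinearMap.toContinuousLinearMap L) ((U, V) : X) := by
    rw [hasStrictFDerivAt_pi']
    intro e
    let A : Fin r → X →L[ℂ] ℂ := fun c =>
      ((ContinuousLinearMap.proj (R := ℂ) (φ := fun _ : Fin r => ℂ) c).comp
        ((ContinuousLinearMap.proj (R := ℂ) (φ := fun _ : Fin n => Fin r → ℂ) e.1.1).comp
          (ContinuousLinearMap.fst ℂ (Fin n → Fin r → ℂ) (Fin n → Fin r → ℂ))))
    let A' : Fin r → X →L[ℂ] ℂ := fun c =>
      ((ContinuousLinearMap.proj (R := ℂ) (φ := fun _ : Fin r => ℂ) c).comp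
        ((ContinuousLinearMap.proj (R := ℂ) (φ := fun _ : Fin n => Fin r → ℂ) e.1.2).comp
          (ContinuousLinearMap.snd ℂ (Fin n → Fin r → ℂ) (Fin n → Fin r → ℂ))))
    have ha : ∀ c : Fin r, HasStrictFDerivAt (fun x : X => x.1 e.1.1 c) (A c) ((U, V) : X) :=
      fun c => (A c).hasStrictFDerivAt
    have hb : ∀ c : Fin r, HasStrictFDerivAt (fun x : X => x.2 e.1.2 c) (A' c) ((U, V) : X) :=
      fun c => (A' c).hasStrictFDerivAt
    have hs := HasStrictFDerivAt.fun_sum (u := (univ : Finset (Fin r)))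
      (fun c _ => (ha c).fun_mul (hb c))
    convert hs using 1
    refine ContinuousLinearMap.ext fun x => ?_
    simp [L, A, A']
    rfl
  have hsurj : (LinearMap.toContinuousLinearMap L).range = ⊤ := by
    by_contra hne
    obtain ⟨f, hf0, hf⟩ := Submodule.exists_le_ker_of_lt_top _ (lt_top_iff_ne_top.2 hne)
    have hfL : ∀ x, f (L x) = 0 := fun x => hf ⟨x, rfl⟩
    let N : Fin n → Fin n → ℂ := fun i j =>
      if h : ((j - i : Fin n) : ℕ) < l then f (Pi.single (⟨(i, j), h⟩ : E) 1) else 0
    have hfN : ∀ G : Fin n → Fin n → ℂ, f (fun e : E => G e.1.1 e.1.2) = ∑ i, ∑ j, N i j * G i j := by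
      intro G
      rw [LinearMap.pi_apply_eq_sum_univ f, ← Fintype.sum_prod_type']
      rw [← Fintype.sum_subtype_add_sum_subtype
        (fun p : Fin n × Fin n => ((p.2 - p.1 : Fin n) : ℕ) < l) (fun p => N p.1 p.2 * G p.1 p.2)]
      have h0 : ∑ e : {p : Fin n × Fin n // ¬ ((p.2 - p.1 : Fin n) : ℕ) < l},
          N e.1.1 e.1.2 * G e.1.1 e.1.2 = 0 :=
        Finset.sum_eq_zero fun e _ => by simp only [N, dif_neg e.2, zero_mul]
      rw [h0, add_zero]
      refine Finset.sum_congr rfl fun e _ => ?_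
      simp only [N, dif_pos e.2, smul_eq_mul]
      rw [mul_comm]
      congr 2
      funext j
      rw [Pi.single_apply]
      by_cases h5 : e = j
      · subst h5; simp
      · rw [if_neg h5, if_neg (fun h6 => h5 h6.symm)]
    have hz := fourier_zero n l t (by omega) hw B B' hBB N ?_ ?_ ?_
    · apply hf0
      refine LinearMap.pi_ext fun e x => ?_
      have h1 := hz e.1.1 e.1.2
      simp only [N, dif_pos e.2] at h1
      have h2 : (Pi.single e x : E → ℂ) = x • (Pi.single e 1 : E → ℂ) := by
        rw [← Pi.single_smul, smul_eq_mul, mul_one]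
      rw [h2, map_smul]
      simp only [LinearMap.zero_apply, smul_eq_mul]
      exact mul_eq_zero_of_right _ h1
    · intro i j hij
      simp only [N, dif_neg (not_lt.2 hij)]
    · intro a ha j
      obtain ⟨c, rfl⟩ := hα a ha
      have h1 := hfL ((0, Pi.single j (Pi.single c 1)) : X)
      have h2 : L ((0, Pi.single j (Pi.single c 1)) : X)
          = fun e : E => (fun i j' => if j' = j then U i c else 0) e.1.1 e.1.2 := by
        funext e
        simp only [L, LinearMap.coe_mk, AddHom.coe_mk, Pi.zero_apply, mul_zero, add_zero]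
        by_cases h3 : e.1.2 = j
        · simp [h3, Pi.single_apply]
        · simp [h3]
      rw [h2, hfN (fun i j' => if j' = j then U i c else 0)] at h1
      simpa [U] using h1
    · intro b hb i
      obtain ⟨c, rfl⟩ := hβ b hb
      have h1 := hfL ((Pi.single i (Pi.single c 1), 0) : X)
      have h2 : L ((Pi.single i (Pi.single c 1), 0) : X)
          = fun e : E => (fun i' j => if i' = i then V j c else 0) e.1.1 e.1.2 := by
        funext e
        simp only [L, LinearMap.coe_mk, AddHom.coe_mk, Pi.zero_apply, mul_zero, zero_add]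
        by_cases h3 : e.1.1 = i
        · simp [h3, Pi.single_apply]
        · simp [h3]
      rw [h2, hfN (fun i' j => if i' = i then V j c else 0)] at h1
      simpa [V] using h1
  have hmap := hF.map_nhds_eq_of_surj hsurj
  have hev : (fun y : E → ℂ => MvPolynomial.eval y P) =ᶠ[𝓝 (F (U, V))] fun _ => (0 : ℂ) := by
    rw [← hmap]
    refine Filter.eventually_map.2 (Filter.Eventually.of_forall fun x => ?_)
    have h1 := hP ((Matrix.of x.1) * (Matrix.of x.2).transpose)
      (le_trans (Matrix.rank_mul_le_left _ _) (by simpa using Matrix.rank_le_width (Matrix.of x.1)))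
    simpa [Matrix.mul_apply, F] using h1
  have hall := AnalyticOnNhd.eq_of_eventuallyEq (AnalyticOnNhd.eval_mvPolynomial P)
    analyticOnNhd_const hev
  exact MvPolynomial.funext fun y => by simpa using congrFun hall y

end Pool.Agent.H969Z.Circ
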