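import Mathlib

set_option autoImplicit false

namespace Pool.Agent.H969Z.Core3

open Filter Topology

/-- The cubic circulant pattern on five rows and five columns. -/
def E5 : Finset (Fin 5 × Fin 5) :=
  {(0, 0), (0, 1), (0, 2), (1, 1), (1, 2), (1, 3), (2, 2), (2, 3), (2, 4), (3, 3), (3, 4), (3, 0),
    (4, 4), (4, 0), (4, 1)}

lemma solve2 {a b c d : ℝ} (e f : ℝ) (h : a * d - b * c ≠ 0) :
    ∃ x y : ℝ, a * x + b * y = e ∧ c * x + d * y = f :=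
  ⟨(e * d - b * f) / (a * d - b * c), (a * f - e * c) / (a * d - b * c),
    by rw [mul_div_assoc', mul_div_assoc', ← add_div, div_eq_iff h]; ring,
    by rw [mul_div_assoc', mul_div_assoc', ← add_div, div_eq_iff h]; ring⟩

/-- The genericity polynomial. -/
def gen (a : Fin 5 → Fin 5 → ℝ) : ℝ :=
  a 0 0 * a 0 2 * (a 2 2 * a 0 0 * a 3 3 - a 3 0 * a 0 2 * a 2 3)
    * (a 2 2 * a 0 0 * a 3 4 - a 3 0 * a 0 2 * a 2 4)
    * ((a 1 2 * a 0 0 * a 3 3 - a 3 0 * a 0 2 * a 1 3) * (a 2 2 * a 0 0 * a 4 4 - a 4 0 * a 0 2 * a 2 4)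
      - (a 2 2 * a 0 0 * a 1 3 - a 1 2 * a 0 0 * a 2 3) * (a 4 0 * a 0 2 * a 3 4 - a 3 0 * a 0 2 * a 4 4))
    * (a 1 2 * a 0 0 * a 4 1 - a 4 0 * a 0 2 * a 1 1)

lemma complete (a : Fin 5 → Fin 5 → ℝ) (h : gen a ≠ 0) :
    ∃ B : Matrix (Fin 5) (Fin 5) ℝ, (∀ p ∈ E5, B p.1 p.2 = a p.1 p.2) ∧ B.rank ≤ 2 := by
  unfold gen at h
  simp only [mul_ne_zero_iff] at h
  obtain ⟨⟨⟨⟨⟨h00, h02⟩, hD1⟩, hD4⟩, hN⟩, hE⟩ := h
  set P := a 2 2 * a 0 0 with hP
  set Q := a 3 0 * a 0 2 with hQ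
  set Z1 := a 1 2 * a 0 0 with hZ1
  set Z4 := a 4 0 * a 0 2 with hZ4
  obtain ⟨x1, y1, e11, e12⟩ := solve2 (a := P) (b := Q) (c := a 2 3) (d := a 3 3) Z1 (a 1 3) hD1
  obtain ⟨x4, y4, e41, e42⟩ := solve2 (a := P) (b := Q) (c := a 2 4) (d := a 3 4) Z4 (a 4 4) hD4
  have hD : x1 * y4 - y1 * x4 ≠ 0 := by
    intro h0
    apply hN
    rw [← e11, ← e12, ← e41, ← e42]
    linear_combination ((P * a 3 3 - Q * a 2 3) * (P * a 3 4 - Q * a 2 4)) * h0
  obtain ⟨s, t, ec1, ec4⟩ := solve2 (a := x1) (b := y1) (c := x4) (d := y4) (a 1 1) (a 4 1) hD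
  have hD0 : P * t - Q * s ≠ 0 := by
    intro h0
    apply hE
    rw [← e11, ← e41, ← ec1, ← ec4]
    linear_combination (x1 * y4 - y1 * x4) * h0
  obtain ⟨x0, y0, e01, e02⟩ := solve2 (a := P) (b := Q) (c := s) (d := t) (a 0 0 * a 0 2) (a 0 1) hD0
  let u : Matrix (Fin 5) (Fin 2) ℝ := !![x0, y0; x1, y1; 1, 0; 0, 1; x4, y4]
  let v : Matrix (Fin 2) (Fin 5) ℝ :=
    !![P / a 0 2, s, P / a 0 0, a 2 3, a 2 4; Q / a 0 2, t, Q / a 0 0, a 3 3, a 3 4]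
  refine ⟨u * v, ?_, le_trans (Matrix.rank_mul_le_left _ _) (by simpa using Matrix.rank_le_width u)⟩
  intro p hp
  simp only [E5, Finset.mem_insert, Finset.mem_singleton] at hp
  rcases hp with rfl | rfl | rfl | rfl | rfl | rfl | rfl | rfl | rfl | rfl | rfl | rfl | rfl | rfl | rfl <;>
    simp [u, v, Matrix.mul_apply, Fin.sum_univ_two]
  · field_simp; linear_combination e01
  · linear_combination e02
  · field_simp; linear_combination e01
  · linear_combination ec1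
  · field_simp; linear_combination e11
  · linear_combination e12
  · rw [hP]; field_simp
  · rw [hQ]; field_simp
  · linear_combination e42
  · field_simp; linear_combination e41
  · linear_combination ec4

lemma gen_analytic : AnalyticOnNhd ℝ gen Set.univ := by
  intro x _
  have h : ∀ i j : Fin 5, AnalyticAt ℝ (fun a : Fin 5 → Fin 5 → ℝ => a i j) x := fun i j =>
    ((ContinuousLinearMap.proj (R := ℝ) (φ := fun _ : Fin 5 => ℝ) j).comp
      (ContinuousLinearMap.proj (R := ℝ) (φ := fun _ : Fin 5 => Fin 5 → ℝ) i)).analyticAt x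
  unfold gen
  repeat' first | apply AnalyticAt.fun_mul | apply AnalyticAt.fun_sub | exact h _ _

theorem main (U : Set (Matrix (Fin 5) (Fin 5) ℝ)) (hU : IsOpen U) (hne : U.Nonempty) :
    ∃ A ∈ U, ∃ B : Matrix (Fin 5) (Fin 5) ℝ, (∀ p ∈ E5, B p.1 p.2 = A p.1 p.2) ∧ B.rank ≤ 2 := by
  by_contra hcon
  obtain ⟨A₀, hA₀⟩ := hne
  have hz : ∀ A ∈ U, gen A = 0 := by
    intro A hA
    by_contra h
    exact hcon ⟨A, hA, complete A h⟩
  have hev : gen =ᶠ[𝓝 (A₀ : Fin 5 → Fin 5 → ℝ)] fun _ => (0 : ℝ) :=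
    Filter.mem_of_superset (hU.mem_nhds hA₀) hz
  have hall := AnalyticOnNhd.eq_of_eventuallyEq gen_analytic analyticOnNhd_const hev
  have := congrFun hall
    ![![1, 1, 1, 0, 0], ![0, 2, 1, 1, 0], ![0, 0, 1, 2, 3], ![1, 0, 0, 1, 1], ![1, 1, 0, 0, 5]]
  simp [gen] at this
  norm_num at this

end Pool.Agent.H969Z.Core3
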