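import Pool.Agent.H969Z.MniPoly

set_option autoImplicit false

namespace Pool.Agent.H969Z.Mni

open Finset

variable {α : Type} [Fintype α] [DecidableEq α]

/-- A line: a member of minimum size. -/
def Ln (C : Finset (Finset α)) (r : ℕ) (M : Finset α) : Prop := M ∈ C ∧ M.card = r

instance (C : Finset (Finset α)) (r : ℕ) : DecidablePred (Ln C r) := fun M => by
  unfold Ln; infer_instance

/-- The minimum members of `C` are the lines of a projective plane of order at least three. -/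
structure Plane (C : Finset (Finset α)) (r : ℕ) : Prop where
  four : 4 ≤ r
  big : ∀ S ∈ C, r ≤ S.card
  join : ∀ p q : α, p ≠ q → ∃! ℓ : Finset α, ℓ ∈ C ∧ ℓ.card = r ∧ p ∈ ℓ ∧ q ∈ ℓ
  meet : ∀ ℓ ∈ C, ∀ m ∈ C, ℓ.card = r → m.card = r → ℓ ≠ m → ∃! p : α, p ∈ ℓ ∧ p ∈ m
  quad : ∃ F : Finset α, F.card = 4 ∧ ∀ ℓ ∈ C, ℓ.card = r → (F ∩ ℓ).card ≤ 2

/-- The pencil of lines through a point. -/
def pen (C : Finset (Finset α)) (r : ℕ) (f : α) : Finset (Finset α) :=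
  C.filter (fun M => M.card = r ∧ f ∈ M)

variable {C : Finset (Finset α)} {r : ℕ}

omit [Fintype α] in
lemma mem_pen {f : α} {M : Finset α} : M ∈ pen C r f ↔ Ln C r M ∧ f ∈ M := by
  simp [pen, Ln, and_assoc]

namespace Plane

omit [Fintype α]

lemma ex_join (h : Plane C r) {a b : α} (hab : a ≠ b) : ∃ M, Ln C r M ∧ a ∈ M ∧ b ∈ M := by
  obtain ⟨M, ⟨h1, h2, h3, h4⟩, -⟩ := h.join a b hab
  exact ⟨M, ⟨h1, h2⟩, h3, h4⟩

lemma eq_of_two (h : Plane C r) {a b : α} (hab : a ≠ b) {L M : Finset α} (hL : Ln C r L)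
    (hM : Ln C r M) (haL : a ∈ L) (hbL : b ∈ L) (haM : a ∈ M) (hbM : b ∈ M) : L = M :=
  (h.join a b hab).unique ⟨hL.1, hL.2, haL, hbL⟩ ⟨hM.1, hM.2, haM, hbM⟩

lemma pt_eq (h : Plane C r) {a b : α} {L M : Finset α} (hL : Ln C r L)
    (hM : Ln C r M) (hLM : L ≠ M) (haL : a ∈ L) (hbL : b ∈ L) (haM : a ∈ M) (hbM : b ∈ M) :
    a = b := by
  by_contra hab
  exact hLM (h.eq_of_two hab hL hM haL hbL haM hbM)

lemma ex_meet (h : Plane C r) {L M : Finset α} (hL : Ln C r L) (hM : Ln C r M) (hLM : L ≠ M) :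
    ∃ x, x ∈ L ∧ x ∈ M :=
  (h.meet L hL.1 M hM.1 hL.2 hM.2 hLM).exists

lemma card_inter (h : Plane C r) {L M : Finset α} (hL : Ln C r L) (hM : Ln C r M)
    (hLM : L ≠ M) : (L ∩ M).card = 1 := by
  obtain ⟨x, hx1, hx2⟩ := h.ex_meet hL hM hLM
  rw [card_eq_one]
  refine ⟨x, ?_⟩
  ext y
  simp only [mem_inter, mem_singleton]
  exact ⟨fun hy => h.pt_eq hL hM hLM hy.1 hx1 hy.2 hx2, fun hy => by subst hy; exact ⟨hx1, hx2⟩⟩

/-- Three points of `F` on a line are impossible. -/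
lemma ex_tri (h : Plane C r) (f : α) : ∃ a b c : α, a ≠ b ∧ a ≠ c ∧ b ≠ c ∧ a ≠ f ∧ b ≠ f ∧ c ≠ f ∧
    ∀ M, Ln C r M → a ∈ M → b ∈ M → c ∉ M := by
  obtain ⟨F, hF, hq⟩ := h.quad
  have h3 : 2 < (F.erase f).card := by
    have := pred_card_le_card_erase (s := F) (a := f); omega
  obtain ⟨a, b, c, ha, hb, hc, hab, hac, hbc⟩ := two_lt_card_iff.1 h3
  rw [mem_erase] at ha hb hc
  refine ⟨a, b, c, hab, hac, hbc, ha.1, hb.1, hc.1, fun M hM haM hbM hcM => ?_⟩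
  have := hq M hM.1 hM.2
  have h2 : 2 < (F ∩ M).card := two_lt_card_iff.2
    ⟨a, b, c, by simp [ha.2, haM], by simp [hb.2, hbM], by simp [hc.2, hcM], hab, hac, hbc⟩
  omega

lemma ex_avoid (h : Plane C r) (f : α) : ∃ L, Ln C r L ∧ f ∉ L := by
  obtain ⟨a, b, c, hab, hac, -, haf, -, -, hn⟩ := h.ex_tri f
  obtain ⟨L, hL, haL, hbL⟩ := h.ex_join hab
  obtain ⟨M, hM, haM, hcM⟩ := h.ex_join hac
  by_cases hfL : f ∈ L
  · refine ⟨M, hM, fun hfM => ?_⟩
    have := h.eq_of_two haf hL hM haL hfL haM hfM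
    exact hn L hL haL hbL (this ▸ hcM)
  · exact ⟨L, hL, hfL⟩

lemma card_pen (h : Plane C r) (f : α) : (pen C r f).card = r := by
  obtain ⟨L, hL, hfL⟩ := h.ex_avoid f
  have hj : ∀ x ∈ L, ∃ M, Ln C r M ∧ f ∈ M ∧ x ∈ M := fun x hx =>
    h.ex_join (fun e => hfL (e ▸ hx))
  choose g hg using hj
  refine Eq.trans (Eq.symm ?_) hL.2
  refine card_bij g (fun x hx => mem_pen.2 ⟨(hg x hx).1, (hg x hx).2.1⟩) ?_ ?_
  · intro x hx y hy e
    have hne : g x hx ≠ L := fun e' => hfL (e' ▸ (hg x hx).2.1)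
    exact h.pt_eq (hg x hx).1 hL hne (hg x hx).2.2 (e ▸ (hg y hy).2.2) hx hy
  · intro M hM
    rw [mem_pen] at hM
    have hne : M ≠ L := fun e' => hfL (e' ▸ hM.2)
    obtain ⟨x, hx1, hx2⟩ := h.ex_meet hM.1 hL hne
    exact ⟨x, hx2, h.eq_of_two (fun e : f = x => hfL (e ▸ hx2)) (hg x hx2).1 hM.1 (hg x hx2).2.1
      (hg x hx2).2.2 hM.2 hx1⟩

lemma sum_pen (h : Plane C r) (B : Finset α) (f : α) :
    ∑ M ∈ pen C r f, (((B ∩ M).card : ℤ) - 1) =
      (B.card - r) + (if f ∈ B then (r : ℤ) - 1 else 0) := by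
  have e1 : ∀ M, ((B ∩ M).card : ℤ) = ∑ g ∈ B, if g ∈ M then 1 else 0 := by
    intro M
    rw [← filter_mem_eq_inter, card_filter]; push_cast; rfl
  have e2 : ∀ g, ∑ M ∈ pen C r f, (if g ∈ M then (1 : ℤ) else 0) =
      1 + if g = f then (r : ℤ) - 1 else 0 := by
    intro g
    rw [sum_boole]
    by_cases hg : g = f
    · subst hg
      rw [filter_true_of_mem (fun M hM => (mem_pen.1 hM).2), h.card_pen]; simp
    · obtain ⟨M, hM, hfM, hgM⟩ := h.ex_join (Ne.symm hg)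
      have : (pen C r f).filter (fun M => g ∈ M) = {M} := by
        ext N
        simp only [mem_filter, mem_pen, mem_singleton]
        exact ⟨fun hN => h.eq_of_two hg hN.1.1 hM hN.2 hN.1.2 hgM hfM,
          fun hN => by subst hN; exact ⟨⟨hM, hfM⟩, hgM⟩⟩
      rw [this]; simp [hg]
  rw [sum_sub_distrib]
  simp_rw [e1]
  rw [sum_comm]
  simp_rw [e2]
  rw [sum_add_distrib, sum_ite_eq']
  simp [h.card_pen]
  ring

/-- Through a point different from `a, b, c` there is a line missing all three. -/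
lemma ex_gen (h : Plane C r) {a b c f : α} (ha : f ≠ a) (hb : f ≠ b) (hc : f ≠ c) :
    ∃ M, Ln C r M ∧ f ∈ M ∧ a ∉ M ∧ b ∉ M ∧ c ∉ M := by
  obtain ⟨A, hA, hfA, haA⟩ := h.ex_join ha
  obtain ⟨B, hB, hfB, hbB⟩ := h.ex_join hb
  obtain ⟨D, hD, hfD, hcD⟩ := h.ex_join hc
  have hlt : ({A, B, D} : Finset (Finset α)).card < (pen C r f).card := by
    rw [h.card_pen]; have := h.four; have := card_le_three (a := A) (b := B) (c := D); omega
  obtain ⟨M, hM, hM'⟩ := exists_mem_notMem_of_card_lt_card hlt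
  rw [mem_pen] at hM
  simp only [mem_insert, mem_singleton, not_or] at hM'
  exact ⟨M, hM.1, hM.2, fun e => hM'.1 (h.eq_of_two ha hM.1 hA hM.2 e hfA haA),
    fun e => hM'.2.1 (h.eq_of_two hb hM.1 hB hM.2 e hfB hbB),
    fun e => hM'.2.2 (h.eq_of_two hc hM.1 hD hM.2 e hfD hcD)⟩

end Plane

/-- Every member of `C` meets every line. -/
theorem covers (h : Plane C r) (hI : ∀ p, IdealDel C p) {S L : Finset α} (hS : S ∈ C)
    (hL : Ln C r L) : (S ∩ L).Nonempty := by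
  have hr := h.four
  obtain ⟨e, he, f, hf, hef⟩ := one_lt_card.1 (by rw [hL.2]; omega : 1 < L.card)
  by_cases heS : e ∈ S
  · exact ⟨e, by simp [heS, he]⟩
  have hrpos : (0 : ℝ) < r := by exact_mod_cast (by omega : 0 < r)
  have hsum : ∀ T : Finset α, e ∉ T →
      ∑ i ∈ T, (if i = e then (0 : ℝ) else 1 / r) = T.card / r := by
    intro T hT
    rw [sum_congr rfl (fun i hi => if_neg (fun hh : i = e => hT (hh ▸ hi)))]
    simp [div_eq_mul_inv]
  obtain ⟨B, heB, hcov, hbl, hW⟩ := poly (hI e) (fun M => Ln C r M ∧ e ∉ M)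
    (fun M hM => ⟨hM.1.1, hM.2⟩)
    (fun g hg => by
      obtain ⟨M, h1, h2, h3, -, -⟩ := h.ex_gen hg hg hg
      exact ⟨M, ⟨h1, h3⟩, h2⟩)
    (fun i => if i = e then 0 else 1 / r)
    ⟨fun i => by dsimp only; split_ifs <;> positivity, by simp, fun T hT heT => by
      rw [hsum T heT, le_div_iff₀ hrpos, one_mul]; exact_mod_cast h.big T hT⟩
    (fun M hM => by rw [hsum M hM.2, hM.1.2]; exact div_self hrpos.ne') {f}
  have hfB : f ∈ B := by
    rw [hsum _ (by simpa using hef)] at hW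
    have hp : (0 : ℝ) < (({f} : Finset α).card : ℝ) / r := by simp [hrpos]
    have : 0 < (B ∩ {f}).card := by exact_mod_cast hp.trans_le hW
    obtain ⟨x, hx⟩ := card_pos.1 this
    simp only [mem_inter, mem_singleton] at hx
    exact hx.2 ▸ hx.1
  obtain ⟨g, hg⟩ := hcov S hS heS
  rw [mem_inter] at hg
  refine ⟨g, mem_inter.2 ⟨hg.2, ?_⟩⟩
  by_cases hgf : g = f
  · exact hgf ▸ hf
  obtain ⟨M, hM, hgM, hfM⟩ := h.ex_join hgf
  by_cases heM : e ∈ M
  · exact h.eq_of_two hef hM hL heM hfM he hf ▸ hgM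
  · have h1 := hbl M ⟨hM, heM⟩
    have : 1 < (B ∩ M).card :=
      one_lt_card.2 ⟨g, by simp [hg.1, hgM], f, by simp [hfB, hfM], hgf⟩
    omega

end Pool.Agent.H969Z.Mni
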