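import Pool.Agent.H969Z.MniGeo

set_option autoImplicit false

namespace Pool.Agent.H969Z.Mni

open Finset

variable {α : Type} [Fintype α] [DecidableEq α] {C : Finset (Finset α)} {r : ℕ}

/-- The dichotomy coming from a face of the covering polyhedron of `C \ p`. -/
theorem key (h : Plane C r) (hI : ∀ p, IdealDel C p) {p : α} {L0 : Finset α} (hL0 : Ln C r L0)
    (hp : p ∈ L0) (red : Finset α → Prop) [DecidablePred red]
    (hcov : ∀ f ∈ L0, f ≠ p → ∃ M, Ln C r M ∧ p ∉ M ∧ red M ∧ f ∈ M)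
    (hblue : ∀ f, f ≠ p → ∃ M, Ln C r M ∧ p ∉ M ∧ ¬ red M ∧ f ∈ M) :
    (∃ S ∈ C, r < S.card ∧ p ∉ S ∧ (∀ M, Ln C r M → p ∉ M → red M → (S ∩ M).card = 1) ∧
      ∀ M, Ln C r M → p ∈ M → M ≠ L0 → (S ∩ M).card = 1) ∨
    (∃ B : Finset α, p ∉ B ∧ (∀ S ∈ C, p ∉ S → (B ∩ S).Nonempty) ∧
      (∀ M, Ln C r M → p ∉ M → ¬ red M → (B ∩ M).card = 1) ∧ r + (B ∩ L0).card ≤ B.card) := by
  by_cases hc : ∃ S ∈ C, r < S.card ∧ p ∉ S ∧
      (∀ M, Ln C r M → p ∉ M → red M → (S ∩ M).card = 1) ∧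
      ∀ M, Ln C r M → p ∈ M → M ≠ L0 → (S ∩ M).card = 1
  · exact Or.inl hc
  right
  have hr := h.four
  set 𝓛 : Finset (Finset α) :=
    C.filter (fun M => M.card = r ∧ ((p ∉ M ∧ red M) ∨ (p ∈ M ∧ M ≠ L0))) with h𝓛
  have mem𝓛 : ∀ M, M ∈ 𝓛 ↔ Ln C r M ∧ ((p ∉ M ∧ red M) ∨ (p ∈ M ∧ M ≠ L0)) := by
    intro M; simp [h𝓛, Ln, and_assoc]
  have hne0 : ∀ M ∈ 𝓛, M ≠ L0 := by
    intro M hM e
    rcases ((mem𝓛 M).1 hM).2 with h1 | h1
    · exact h1.1 (e ▸ hp)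
    · exact h1.2 e
  have hNpos : 0 < 𝓛.card := by
    obtain ⟨f, hf, hfp⟩ := exists_mem_ne (by rw [hL0.2]; omega : 1 < L0.card) p
    obtain ⟨M, h1, h2, h3, -⟩ := hcov f hf hfp
    exact card_pos.2 ⟨M, (mem𝓛 M).2 ⟨h1, Or.inl ⟨h2, h3⟩⟩⟩
  set N : ℝ := (𝓛.card : ℝ) with hN
  have hN1 : 1 ≤ N := by rw [hN]; exact_mod_cast hNpos
  have hr4 : (4 : ℝ) ≤ r := by exact_mod_cast hr
  set ε : ℝ := 1 / (N * r) with hε
  have hεpos : 0 < ε := by positivity
  have hεN : ε * (N * r) = 1 := by rw [hε]; field_simp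
  clear_value ε
  set y : α → ℝ := fun f => if f = p then 0 else
    (1 + ε) / N * (∑ M ∈ 𝓛, if f ∈ M then (1 : ℝ) else 0) - ε * (if f ∈ L0 then 1 else 0) with hy
  have hcard : ∀ S M : Finset α, ∑ i ∈ S, (if i ∈ M then (1 : ℝ) else 0) = (S ∩ M).card := by
    intro S M
    rw [← filter_mem_eq_inter, card_filter]; push_cast; rfl
  have hsum : ∀ S : Finset α, p ∉ S → ∑ i ∈ S, y i =
      (1 + ε) / N * (∑ M ∈ 𝓛, ((S ∩ M).card : ℝ)) - ε * (S ∩ L0).card := by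
    intro S hS
    rw [sum_congr rfl (fun i hi => if_neg (fun hh : i = p => hS (hh ▸ hi)))]
    rw [sum_sub_distrib, ← mul_sum, ← mul_sum, sum_comm, hcard]
    simp_rw [hcard]
  have hone : ∀ S : Finset α, p ∉ S → Ln C r S → (∀ M ∈ 𝓛, (S ∩ M).card = 1) →
      ∑ i ∈ S, y i = 1 := by
    intro S hpS hS h1
    rw [hsum S hpS, sum_congr rfl (fun M hM => by rw [h1 M hM]),
      h.card_inter hS hL0 (fun e => hpS (e ▸ hp))]
    simp only [Nat.cast_one, sum_const, nsmul_eq_mul, mul_one, ← hN]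
    field_simp
    ring
  obtain ⟨B, hpB, hBc, hBb, hW⟩ := poly (hI p) (fun M => Ln C r M ∧ p ∉ M ∧ ¬ red M)
    (fun M hM => ⟨hM.1.1, hM.2.1⟩)
    (fun g hg => by
      obtain ⟨M, h1, h2, h3, h4⟩ := hblue g hg
      exact ⟨M, ⟨h1, h2, h3⟩, h4⟩) y
    ⟨fun i => by
      simp only [hy]
      by_cases hi : i = p
      · simp [hi]
      rw [if_neg hi]
      by_cases hiL : i ∈ L0
      · obtain ⟨M, h1, h2, h3, h4⟩ := hcov i hiL hi
        have h5 : (1 : ℝ) ≤ ∑ M ∈ 𝓛, if i ∈ M then (1 : ℝ) else 0 := by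
          have := single_le_sum (f := fun M => if i ∈ M then (1 : ℝ) else 0)
            (fun M _ => by split_ifs <;> norm_num)
            ((mem𝓛 M).2 ⟨h1, Or.inl ⟨h2, h3⟩⟩)
          simpa [h4] using this
        rw [if_pos hiL]
        have h6 : ε ≤ (1 + ε) / N := by
          rw [le_div_iff₀ (by linarith)]; nlinarith
        nlinarith [mul_le_mul_of_nonneg_left h5 (by positivity : 0 ≤ (1 + ε) / N)]
      · rw [if_neg hiL, mul_zero, sub_zero]
        exact mul_nonneg (by positivity)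
          (sum_nonneg fun M _ => by split_ifs <;> norm_num),
     by simp [hy], fun S hS hpS => by
      by_cases hall : ∀ M ∈ 𝓛, (S ∩ M).card = 1
      · have hle : S.card ≤ r := by
          by_contra hlt
          exact hc ⟨S, hS, by omega, hpS,
            fun M h1 h2 h3 => hall M ((mem𝓛 M).2 ⟨h1, Or.inl ⟨h2, h3⟩⟩),
            fun M h1 h2 h3 => hall M ((mem𝓛 M).2 ⟨h1, Or.inr ⟨h2, h3⟩⟩)⟩
        exact (hone S hpS ⟨hS, le_antisymm hle (h.big S hS)⟩ hall).ge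
      · push Not at hall
        obtain ⟨M0, hM0, hM0'⟩ := hall
        have hge : ∀ M ∈ 𝓛, 1 ≤ (S ∩ M).card := fun M hM =>
          card_pos.2 (covers h hI hS ((mem𝓛 M).1 hM).1)
        have hlt : ∑ M ∈ 𝓛, 1 < ∑ M ∈ 𝓛, (S ∩ M).card :=
          sum_lt_sum hge ⟨M0, hM0, lt_of_le_of_ne (hge M0 hM0) (Ne.symm hM0')⟩
        have h7 : N + 1 ≤ ∑ M ∈ 𝓛, ((S ∩ M).card : ℝ) := by
          rw [hN]
          simp only [sum_const, smul_eq_mul, mul_one] at hlt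
          exact_mod_cast hlt
        have h8 : ((S ∩ L0).card : ℝ) ≤ r := by
          have := card_le_card (inter_subset_right (s₁ := S) (s₂ := L0))
          rw [hL0.2] at this
          exact_mod_cast this
        rw [hsum S hpS]
        have h9 : (1 + ε) / N * (N + 1) ≤ (1 + ε) / N * ∑ M ∈ 𝓛, ((S ∩ M).card : ℝ) :=
          mul_le_mul_of_nonneg_left h7 (by positivity)
        have h10 : 1 + ε * r ≤ (1 + ε) / N * (N + 1) := by
          rw [div_mul_eq_mul_div, le_div_iff₀ (by linarith)]; nlinarith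
        nlinarith [mul_le_mul_of_nonneg_left h8 hεpos.le]⟩
    (fun M hM => hone M hM.2.1 hM.1 fun L hL => h.card_inter hM.1 ((mem𝓛 L).1 hL).1 (by
      rintro rfl
      rcases ((mem𝓛 M).1 hL).2 with h1 | h1
      · exact hM.2.2 h1.2
      · exact hM.2.1 h1.1)) L0ᶜ
  refine ⟨B, hpB, hBc, fun M h1 h2 h3 => hBb M ⟨h1, h2, h3⟩, ?_⟩
  rw [hsum _ (by simpa using hp)] at hW
  have e1 : ∀ M ∈ 𝓛, ((L0ᶜ ∩ M).card : ℝ) = r - 1 := by
    intro M hM
    have h1 := ((mem𝓛 M).1 hM).1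
    have h2 := h.card_inter h1 hL0 (hne0 M hM)
    have h3 := card_sdiff_add_card_inter M L0
    have h4 : L0ᶜ ∩ M = M \ L0 := by ext x; simp [and_comm]
    rw [h4]
    have : (M \ L0).card + 1 = r := by rw [← h1.2, ← h3, h2]
    rw [← this]; push_cast; ring
  have e0 : L0ᶜ ∩ L0 = ∅ := by ext x; simp
  rw [sum_congr rfl e1] at hW
  simp only [sum_const, nsmul_eq_mul, ← hN, e0, card_empty, Nat.cast_zero, mul_zero,
    sub_zero] at hW
  have e2 : (1 + ε) / N * (N * (r - 1)) = (1 + ε) * (r - 1) := by field_simp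
  rw [e2] at hW
  have e3 : (r : ℝ) < (B ∩ L0ᶜ).card + 1 := by nlinarith
  have e4 : r < (B ∩ L0ᶜ).card + 1 := by exact_mod_cast e3
  have e5 := card_sdiff_add_card_inter B L0
  have e6 : B ∩ L0ᶜ = B \ L0 := by ext x; simp
  rw [e6] at e4
  omega

omit [Fintype α] in
/-- In the second case of `key`, some points are forced into `B`. -/
theorem force (h : Plane C r) {p : α} {L0 : Finset α} (hL0 : Ln C r L0)
    (hp : p ∈ L0) (red : Finset α → Prop) {B : Finset α}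
    (hBc : ∀ S ∈ C, p ∉ S → (B ∩ S).Nonempty)
    (hBb : ∀ M, Ln C r M → p ∉ M → ¬ red M → (B ∩ M).card = 1)
    (hB : r + (B ∩ L0).card ≤ B.card)
    {g f k : α} {R L : Finset α} (hR : Ln C r R) (hpR : p ∉ R) (hgR : g ∈ R) (hfR : f ∈ R)
    (hfL : f ∈ L0) (huniq : ∀ M, Ln C r M → p ∉ M → red M → f ∈ M → M = R)
    (hL : Ln C r L) (hpL : p ∈ L) (hgL : g ∈ L) (hkL : k ∈ L) (hkp : k ≠ p)
    (hk : ∀ M, Ln C r M → p ∉ M → k ∈ M → ¬ red M) : g ∈ B := by
  have hr := h.four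
  set d : Finset α → ℤ := fun M => ((B ∩ M).card : ℤ) - 1 with hd
  have hfp : f ≠ p := fun e => hpR (e ▸ hfR)
  have hgp : g ≠ p := fun e => hpR (e ▸ hgR)
  have hsp : ∀ x, ∑ M ∈ pen C r x, d M = (B.card - r) + (if x ∈ B then (r : ℤ) - 1 else 0) :=
    fun x => h.sum_pen B x
  have hge : ∀ x, (B.card - r : ℤ) ≤ ∑ M ∈ pen C r x, d M := fun x => by
    rw [hsp]; split_ifs <;> omega
  have h1 : ∑ M ∈ pen C r f, d M = d L0 + d R := by
    refine sum_eq_add_of_mem L0 R (mem_pen.2 ⟨hL0, hfL⟩) (mem_pen.2 ⟨hR, hfR⟩)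
      (fun e => hpR (e ▸ hp)) ?_
    intro M hM hne
    rw [mem_pen] at hM
    have hpM : p ∉ M := fun e => hne.1 (h.eq_of_two hfp hM.1 hL0 hM.2 e hfL hp)
    have := hBb M hM.1 hpM (fun e => hne.2 (huniq M hM.1 hpM e hM.2))
    simp [hd, this]
  have h2 : ∑ M ∈ pen C r k, d M = d L := by
    refine sum_eq_single_of_mem L (mem_pen.2 ⟨hL, hkL⟩) ?_
    intro M hM hne
    rw [mem_pen] at hM
    have hpM : p ∉ M := fun e => hne (h.eq_of_two hkp hM.1 hL hM.2 e hkL hpL)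
    have := hBb M hM.1 hpM (hk M hM.1 hpM hM.2)
    simp [hd, this]
  have hLR : L ≠ R := fun e => hpR (e ▸ hpL)
  have h3 : d L + d R ≤ ∑ M ∈ pen C r g, d M := by
    rw [← sum_pair hLR]
    refine sum_le_sum_of_subset_of_nonneg ?_ ?_
    · intro M hM
      simp only [mem_insert, mem_singleton] at hM
      rcases hM with rfl | rfl
      · exact mem_pen.2 ⟨hL, hgL⟩
      · exact mem_pen.2 ⟨hR, hgR⟩
    · intro M hM hne
      rw [mem_pen] at hM
      simp only [mem_insert, mem_singleton, not_or] at hne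
      have hpM : p ∉ M := fun e => hne.1 (h.eq_of_two hgp hM.1 hL hM.2 e hgL hpL)
      have := card_pos.2 (hBc M hM.1.1 hpM)
      simp only [hd]; omega
  have h4 := hge f
  have h5 := hge k
  have h6 := hsp g
  by_contra hg
  rw [if_neg hg] at h6
  have h7 : d L0 = ((B ∩ L0).card : ℤ) - 1 := rfl
  omega

end Pool.Agent.H969Z.Mni
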