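import Pool.Agent.H969Z.MniKey

set_option autoImplicit false

namespace Pool.Agent.H969Z.Mni

open Finset

variable {α : Type} [Fintype α] [DecidableEq α] {C : Finset (Finset α)} {r : ℕ}

/-- A triangle with vertices `a, b, c` and opposite sides `X, Y, Z`. -/
structure Tri (C : Finset (Finset α)) (r : ℕ) (a b c : α) (X Y Z : Finset α) : Prop where
  lX : Ln C r X
  lY : Ln C r Y
  lZ : Ln C r Z
  aX : a ∉ X
  bX : b ∈ X
  cX : c ∈ X
  aY : a ∈ Y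
  bY : b ∉ Y
  cY : c ∈ Y
  aZ : a ∈ Z
  bZ : b ∈ Z
  cZ : c ∉ Z

/-- The line contains exactly one vertex. -/
def One (a b c : α) (M : Finset α) : Prop :=
  (a ∈ M ∧ b ∉ M ∧ c ∉ M) ∨ (a ∉ M ∧ b ∈ M ∧ c ∉ M) ∨ (a ∉ M ∧ b ∉ M ∧ c ∈ M)

variable {a b c : α} {X Y Z : Finset α}

section
omit [Fintype α]

lemma Tri.rot (t : Tri C r a b c X Y Z) : Tri C r b c a Y Z X :=
  ⟨t.lY, t.lZ, t.lX, t.bY, t.cY, t.aY, t.bZ, t.cZ, t.aZ, t.bX, t.cX, t.aX⟩

lemma One.rot {M : Finset α} : One b c a M ↔ One a b c M := by unfold One; tauto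

lemma Tri.ab (t : Tri C r a b c X Y Z) : a ≠ b := fun e => t.aX (e ▸ t.bX)
lemma Tri.ac (t : Tri C r a b c X Y Z) : a ≠ c := fun e => t.aX (e ▸ t.cX)
lemma Tri.bc (t : Tri C r a b c X Y Z) : b ≠ c := fun e => t.bY (e ▸ t.cY)
lemma Tri.XY (t : Tri C r a b c X Y Z) : X ≠ Y := fun e => t.aX (e ▸ t.aY)
lemma Tri.XZ (t : Tri C r a b c X Y Z) : X ≠ Z := fun e => t.aX (e ▸ t.aZ)
lemma Tri.YZ (t : Tri C r a b c X Y Z) : Y ≠ Z := fun e => t.bY (e ▸ t.bZ)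

lemma Plane.exTri (h : Plane C r) (f : α) :
    ∃ (a b c : α) (X Y Z : Finset α), Tri C r a b c X Y Z := by
  obtain ⟨a, b, c, hab, hac, hbc, -, -, -, hn⟩ := h.ex_tri f
  obtain ⟨X, hX, hbX, hcX⟩ := h.ex_join hbc
  obtain ⟨Y, hY, haY, hcY⟩ := h.ex_join hac
  obtain ⟨Z, hZ, haZ, hbZ⟩ := h.ex_join hab
  exact ⟨a, b, c, X, Y, Z, hX, hY, hZ, fun e => hn X hX e hbX hcX, hbX, hcX, haY,
    fun e => hn Y hY haY e hcY, hcY, haZ, hbZ, hn Z hZ haZ hbZ⟩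

/-- A line missing the three vertices has at least `r - 3` points off the sides. -/
lemma gen_off (h : Plane C r) (t : Tri C r a b c X Y Z) {M : Finset α} (hM : Ln C r M)
    (ha : a ∉ M) (hb : b ∉ M) :
    r ≤ (M.filter (fun g => g ∉ X ∧ g ∉ Y ∧ g ∉ Z)).card + 3 := by
  have h1 := h.card_inter hM t.lX (fun e => hb (e ▸ t.bX))
  have h2 := h.card_inter hM t.lY (fun e => ha (e ▸ t.aY))
  have h3 := h.card_inter hM t.lZ (fun e => ha (e ▸ t.aZ))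
  have hsub : M ⊆ M.filter (fun g => g ∉ X ∧ g ∉ Y ∧ g ∉ Z) ∪ ((M ∩ X) ∪ ((M ∩ Y) ∪ (M ∩ Z))) := by
    intro x hx
    simp only [mem_union, mem_filter, mem_inter]
    tauto
  have h4 := card_le_card hsub
  have h5 := card_union_le (M.filter (fun g => g ∉ X ∧ g ∉ Y ∧ g ∉ Z))
    ((M ∩ X) ∪ ((M ∩ Y) ∪ (M ∩ Z)))
  have h6 := card_union_le (M ∩ X) ((M ∩ Y) ∪ (M ∩ Z))
  have h7 := card_union_le (M ∩ Y) (M ∩ Z)
  have := hM.2
  omega

lemma vert_side (h : Plane C r) (t : Tri C r a b c X Y Z) {S : Finset α}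
    (h1 : ∀ M, Ln C r M → One a b c M → (S ∩ M).card = 1) (ha : a ∈ S) {f : α} (hf : f ∈ S) :
    f ∈ Y ∨ f ∈ Z := by
  by_cases hfa : f = a
  · exact Or.inl (hfa ▸ t.aY)
  obtain ⟨M, hM, hfM, haM⟩ := h.ex_join hfa
  by_cases hb : b ∈ M
  · exact Or.inr (h.eq_of_two t.ab hM t.lZ haM hb t.aZ t.bZ ▸ hfM)
  by_cases hc : c ∈ M
  · exact Or.inl (h.eq_of_two t.ac hM t.lY haM hc t.aY t.cY ▸ hfM)
  have := h1 M hM (Or.inl ⟨haM, hb, hc⟩)
  have : 1 < (S ∩ M).card := one_lt_card.2 ⟨f, by simp [hf, hfM], a, by simp [ha, haM], hfa⟩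
  omega

lemma two_vert (h : Plane C r) (t : Tri C r a b c X Y Z) {S : Finset α} (hS : r < S.card)
    (h1 : ∀ M, Ln C r M → One a b c M → (S ∩ M).card = 1) (ha : a ∈ S) (hb : b ∈ S) : False := by
  have hr := h.four
  have hZ : ∀ f ∈ S, f ∈ Z ∨ f = c := by
    intro f hf
    rcases vert_side h t h1 ha hf with e | e
    · rcases vert_side h t.rot (fun M hM ho => h1 M hM (One.rot.1 ho)) hb hf with e' | e'
      · exact Or.inl e'
      · exact Or.inr (h.pt_eq t.lX t.lY t.XY e' t.cX e t.cY)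
    · exact Or.inl e
  by_cases hc : c ∈ S
  · have hsub : S ⊆ {a, b, c} := by
      intro f hf
      simp only [mem_insert, mem_singleton]
      rcases hZ f hf with e | e
      · rcases vert_side h t.rot.rot (fun M hM ho => h1 M hM (One.rot.1 (One.rot.1 ho))) hc hf
          with e' | e'
        · exact Or.inr (Or.inl (h.pt_eq t.lX t.lZ t.XZ e' t.bX e t.bZ))
        · exact Or.inl (h.pt_eq t.lY t.lZ t.YZ e' t.aY e t.aZ)
      · exact Or.inr (Or.inr e)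
    have := card_le_card hsub
    have := card_le_three (a := a) (b := b) (c := c)
    omega
  · have hsub : S ⊆ Z := fun f hf => (hZ f hf).resolve_right (fun e => hc (e ▸ hf))
    have := card_le_card hsub
    have := t.lZ.2
    omega

lemma no_vert (h : Plane C r) (t : Tri C r a b c X Y Z) {S : Finset α} (hS : r < S.card)
    (h1 : ∀ M, Ln C r M → One a b c M → (S ∩ M).card = 1) (hX : (S ∩ X).Nonempty) : a ∉ S := by
  intro ha
  obtain ⟨x, hx⟩ := hX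
  rw [mem_inter] at hx
  rcases vert_side h t h1 ha hx.1 with e | e
  · have := h.pt_eq t.lX t.lY t.XY hx.2 t.cX e t.cY
    exact two_vert h t.rot.rot hS (fun M hM ho => h1 M hM (One.rot.1 (One.rot.1 ho)))
      (this ▸ hx.1) ha
  · have := h.pt_eq t.lX t.lZ t.XZ hx.2 t.bX e t.bZ
    exact two_vert h t hS h1 ha (this ▸ hx.1)

lemma vert_in (h : Plane C r) (t : Tri C r a b c X Y Z) {g : α} (gX : g ∉ X) (gY : g ∉ Y)
    (gZ : g ∉ Z) {L0 : Finset α} (hL0 : Ln C r L0) (hg : g ∈ L0) (ha : a ∉ L0) (hb : b ∉ L0)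
    (hc : c ∉ L0) {B : Finset α} (hBc : ∀ S ∈ C, g ∉ S → (B ∩ S).Nonempty)
    (hBb : ∀ M, Ln C r M → g ∉ M → ¬ One a b c M → (B ∩ M).card = 1)
    (hB : r + (B ∩ L0).card ≤ B.card) : a ∈ B := by
  obtain ⟨f, hf0, hfX⟩ := h.ex_meet hL0 t.lX (fun e => hb (e ▸ t.bX))
  have hfa : f ≠ a := fun e => ha (e ▸ hf0)
  have hfb : f ≠ b := fun e => hb (e ▸ hf0)
  have hfc : f ≠ c := fun e => hc (e ▸ hf0)
  have hfg : f ≠ g := fun e => gX (e ▸ hfX)
  have hga : g ≠ a := fun e => gY (e ▸ t.aY)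
  obtain ⟨R, hR, hfR, haR⟩ := h.ex_join hfa
  obtain ⟨L, hL, hgL, haL⟩ := h.ex_join hga
  obtain ⟨k, hkL, hkX⟩ := h.ex_meet hL t.lX (fun e => gX (e ▸ hgL))
  have hka : k ≠ a := fun e => t.aX (e ▸ hkX)
  have hkb : k ≠ b := fun e =>
    gZ (h.eq_of_two t.ab hL t.lZ haL (e ▸ hkL) t.aZ t.bZ ▸ hgL)
  have hkc : k ≠ c := fun e =>
    gY (h.eq_of_two t.ac hL t.lY haL (e ▸ hkL) t.aY t.cY ▸ hgL)
  refine force h hL0 hg (One a b c) hBc hBb hB hR
    (fun e => ha (h.eq_of_two hfg hR hL0 hfR e hf0 hg ▸ haR)) haR hfR hf0 ?_ hL hgL haL hkL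
    (fun e => gX (e ▸ hkX)) ?_
  · rintro M hM - (e | e | e) hfM
    · exact h.eq_of_two hfa hM hR hfM e.1 hfR haR
    · exact absurd (h.eq_of_two hfb hM t.lX hfM e.2.1 hfX t.bX ▸ t.cX) e.2.2
    · exact absurd (h.eq_of_two hfc hM t.lX hfM e.2.2 hfX t.cX ▸ t.bX) e.2.1
  · rintro M hM hgM hkM (e | e | e)
    · exact hgM (h.eq_of_two hka hM hL hkM e.1 hkL haL ▸ hgL)
    · exact absurd (h.eq_of_two hkb hM t.lX hkM e.2.1 hkX t.bX ▸ t.cX) e.2.2
    · exact absurd (h.eq_of_two hkc hM t.lX hkM e.2.2 hkX t.cX ▸ t.bX) e.2.1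

end

/-- First application of `key`. -/
theorem app1 (h : Plane C r) (hI : ∀ p, IdealDel C p) (t : Tri C r a b c X Y Z) :
    ∃ B : Finset α, (∀ S ∈ C, a ∉ S → (B ∩ S).Nonempty) ∧
      (∀ M, Ln C r M → a ∉ M → b ∉ M → c ∉ M → (B ∩ M).card = 1) ∧
      ∀ g, g ∉ X → g ∉ Y → g ∉ Z → g ∈ B := by
  have hr := h.four
  rcases key h hI t.lY t.aY (fun M => (b ∈ M ∧ c ∉ M) ∨ (b ∉ M ∧ c ∈ M))
    (fun f hf hfa => by
      by_cases hfc : f = c
      · subst hfc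
        obtain ⟨M, h1, h2, h3, h4, -⟩ := h.ex_gen hfa t.bc.symm t.bc.symm
        exact ⟨M, h1, h3, Or.inr ⟨h4, h2⟩, h2⟩
      · obtain ⟨M, h1, h2, h3⟩ := h.ex_join (fun e : f = b => t.bY (e ▸ hf))
        exact ⟨M, h1, fun e => t.bY (h.eq_of_two hfa h1 t.lY h2 e hf t.aY ▸ h3),
          Or.inl ⟨h3, fun e => t.bY (h.eq_of_two hfc h1 t.lY h2 e hf t.cY ▸ h3)⟩, h2⟩)
    (fun f hfa => by
      by_cases hfX : f ∈ X
      · exact ⟨X, t.lX, t.aX, by simp [t.bX, t.cX], hfX⟩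
      · obtain ⟨M, h1, h2, h3, h4, h5⟩ := h.ex_gen hfa (fun e : f = b => hfX (e ▸ t.bX))
          (fun e : f = c => hfX (e ▸ t.cX))
        exact ⟨M, h1, h3, by simp [h4, h5], h2⟩) with
    ⟨S, hS, hcard, haS, hred, hpen⟩ | ⟨B, -, hBc, hBb, hB⟩
  · exfalso
    set d : Finset α → ℤ := fun M => ((S ∩ M).card : ℤ) - 1 with hd
    have hsp : ∀ x, ∑ M ∈ pen C r x, d M = (S.card - r) + (if x ∈ S then (r : ℤ) - 1 else 0) :=
      fun x => h.sum_pen S x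
    have h1 : ∑ M ∈ pen C r a, d M = d Y := by
      refine sum_eq_single_of_mem Y (mem_pen.2 ⟨t.lY, t.aY⟩) fun M hM hne => ?_
      rw [mem_pen] at hM
      simp [hd, hpen M hM.1 hM.2 hne]
    have h2 : ∑ M ∈ pen C r b, d M = d X := by
      refine sum_eq_single_of_mem X (mem_pen.2 ⟨t.lX, t.bX⟩) fun M hM hne => ?_
      rw [mem_pen] at hM
      by_cases haM : a ∈ M
      · simp [hd, hpen M hM.1 haM (fun e => t.bY (e ▸ hM.2))]
      · simp [hd, hred M hM.1 haM (Or.inl ⟨hM.2, fun e =>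
          hne (h.eq_of_two t.bc hM.1 t.lX hM.2 e t.bX t.cX)⟩)]
    have h3 : ∑ M ∈ pen C r c, d M = d X + d Y := by
      refine sum_eq_add_of_mem X Y (mem_pen.2 ⟨t.lX, t.cX⟩) (mem_pen.2 ⟨t.lY, t.cY⟩) t.XY
        fun M hM hne => ?_
      rw [mem_pen] at hM
      simp [hd, hred M hM.1 (fun e => hne.2 (h.eq_of_two t.ac hM.1 t.lY e hM.2 t.aY t.cY))
        (Or.inr ⟨fun e => hne.1 (h.eq_of_two t.bc hM.1 t.lX e hM.2 t.bX t.cX), hM.2⟩)]
    have h4 : (S ∩ Y).card < r := by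
      rw [← t.lY.2]
      exact card_lt_card ⟨inter_subset_right, fun e => haS (mem_inter.1 (e t.aY)).1⟩
    have h5 : d Y = ((S ∩ Y).card : ℤ) - 1 := rfl
    have ea := hsp a
    have eb := hsp b
    have ec := hsp c
    rw [if_neg haS] at ea
    split_ifs at eb ec <;> omega
  · refine ⟨B, hBc, fun M h1 h2 h3 h4 => hBb M h1 h2 (by simp [h3, h4]), fun g gX gY gZ => ?_⟩
    have hgb : g ≠ b := fun e => gX (e ▸ t.bX)
    have hga : g ≠ a := fun e => gY (e ▸ t.aY)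
    obtain ⟨R, hR, hgR, hbR⟩ := h.ex_join hgb
    obtain ⟨L, hL, hgL, haL⟩ := h.ex_join hga
    obtain ⟨f, hfR, hfY⟩ := h.ex_meet hR t.lY (fun e => gY (e ▸ hgR))
    obtain ⟨k, hkL, hkX⟩ := h.ex_meet hL t.lX (fun e => gX (e ▸ hgL))
    have hfb : f ≠ b := fun e => t.bY (e ▸ hfY)
    have hfc : f ≠ c := fun e =>
      gX (h.eq_of_two t.bc hR t.lX hbR (e ▸ hfR) t.bX t.cX ▸ hgR)
    have hkb : k ≠ b := fun e =>
      gZ (h.eq_of_two t.ab hL t.lZ haL (e ▸ hkL) t.aZ t.bZ ▸ hgL)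
    have hkc : k ≠ c := fun e =>
      gY (h.eq_of_two t.ac hL t.lY haL (e ▸ hkL) t.aY t.cY ▸ hgL)
    refine force h t.lY t.aY _ hBc hBb hB hR
      (fun e => gZ (h.eq_of_two t.ab hR t.lZ e hbR t.aZ t.bZ ▸ hgR)) hgR hfR hfY ?_ hL haL hgL hkL
      (fun e => t.aX (e ▸ hkX)) ?_
    · rintro M hM haM (e | e) hfM
      · exact h.eq_of_two hfb hM hR hfM e.1 hfR hbR
      · exact absurd (h.eq_of_two hfc hM t.lY hfM e.2 hfY t.cY ▸ t.aY) haM
    · rintro M hM - hkM (e | e)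
      · exact e.2 (h.eq_of_two hkb hM t.lX hkM e.1 hkX t.bX ▸ t.cX)
      · exact e.1 (h.eq_of_two hkc hM t.lX hkM e.2 hkX t.cX ▸ t.bX)

theorem main (h : Plane C r) (hI : ∀ p, IdealDel C p) : False := by
  classical
  have hr := h.four
  obtain ⟨F, hF, -⟩ := h.quad
  obtain ⟨f0, -⟩ := card_pos.1 (by omega : 0 < F.card)
  obtain ⟨a, b, c, X, Y, Z, t⟩ := h.exTri f0
  obtain ⟨B, hBc, hBg, hBO⟩ := app1 h hI t
  -- a line missing the vertices has exactly one point off the sides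
  have huniq : ∀ M, Ln C r M → a ∉ M → b ∉ M → c ∉ M → ∀ x ∈ M, ∀ y ∈ M, x ∈ B → y ∈ B → x = y := by
    intro M h1 h2 h3 h4 x hx y hy hxB hyB
    exact card_le_one.1 (hBg M h1 h2 h3 h4).le x (by simp [hx, hxB]) y (by simp [hy, hyB])
  have hex : ∀ M, Ln C r M → a ∉ M → b ∉ M → ∃ g ∈ M, g ∉ X ∧ g ∉ Y ∧ g ∉ Z := by
    intro M h1 h2 h3
    have := gen_off h t h1 h2 h3
    obtain ⟨g, hg⟩ := card_pos.1 (by omega : 0 < (M.filter (fun g => g ∉ X ∧ g ∉ Y ∧ g ∉ Z)).card)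
    exact ⟨g, (mem_filter.1 hg).1, (mem_filter.1 hg).2⟩
  obtain ⟨f, hfX, hf⟩ := exists_mem_notMem_of_card_lt_card (s := {b, c}) (t := X)
    (by have := t.lX.2; have := card_le_two (a := b) (b := c); omega)
  simp only [mem_insert, mem_singleton, not_or] at hf
  obtain ⟨L0, hL0, -, ha0, hb0, hc0⟩ := h.ex_gen (fun e : f = a => t.aX (e ▸ hfX)) hf.1 hf.2
  obtain ⟨g, hg0, gX, gY, gZ⟩ := hex L0 hL0 ha0 hb0
  have hr4 : r = 4 := by
    have h1 := gen_off h t hL0 ha0 hb0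
    have h2 : (L0.filter (fun g => g ∉ X ∧ g ∉ Y ∧ g ∉ Z)).card ≤ 1 := card_le_one.2 (by
      intro x hx y hy
      rw [mem_filter] at hx hy
      exact huniq L0 hL0 ha0 hb0 hc0 x hx.1 y hy.1 (hBO x hx.2.1 hx.2.2.1 hx.2.2.2)
        (hBO y hy.2.1 hy.2.2.1 hy.2.2.2))
    omega
  rcases key h hI hL0 hg0 (One a b c)
    (fun x hx hxg => by
      have hav : ∀ M v, Ln C r M → x ∈ M → v ∈ M → v ∉ L0 → g ∉ M := fun M v h1 h2 h3 h4 e =>
        h4 (h.eq_of_two hxg h1 hL0 h2 e hx hg0 ▸ h3)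
      have xa : x ≠ a := fun e => ha0 (e ▸ hx)
      have xb : x ≠ b := fun e => hb0 (e ▸ hx)
      have xc : x ≠ c := fun e => hc0 (e ▸ hx)
      obtain ⟨M, h1, h2, h3⟩ := h.ex_join xa
      by_cases hb : b ∈ M
      · have xZ : x ∈ Z := h.eq_of_two t.ab h1 t.lZ h3 hb t.aZ t.bZ ▸ h2
        obtain ⟨N, n1, n2, n3⟩ := h.ex_join xc
        exact ⟨N, n1, hav N c n1 n2 n3 hc0, Or.inr (Or.inr
          ⟨fun e => t.cZ (h.eq_of_two xa n1 t.lZ n2 e xZ t.aZ ▸ n3),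
           fun e => t.cZ (h.eq_of_two xb n1 t.lZ n2 e xZ t.bZ ▸ n3), n3⟩), n2⟩
      by_cases hc : c ∈ M
      · have xY : x ∈ Y := h.eq_of_two t.ac h1 t.lY h3 hc t.aY t.cY ▸ h2
        obtain ⟨N, n1, n2, n3⟩ := h.ex_join xb
        exact ⟨N, n1, hav N b n1 n2 n3 hb0, Or.inr (Or.inl
          ⟨fun e => t.bY (h.eq_of_two xa n1 t.lY n2 e xY t.aY ▸ n3), n3,
           fun e => t.bY (h.eq_of_two xc n1 t.lY n2 e xY t.cY ▸ n3)⟩), n2⟩
      exact ⟨M, h1, hav M a h1 h2 h3 ha0, Or.inl ⟨h3, hb, hc⟩, h2⟩)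
    (fun x hxg => by
      by_cases xX : x ∈ X
      · exact ⟨X, t.lX, gX, by simp [One, t.bX, t.cX], xX⟩
      by_cases xY : x ∈ Y
      · exact ⟨Y, t.lY, gY, by simp [One, t.aY, t.cY], xY⟩
      by_cases xZ : x ∈ Z
      · exact ⟨Z, t.lZ, gZ, by simp [One, t.aZ, t.bZ], xZ⟩
      obtain ⟨M, h1, h2, h3, h4, h5⟩ := h.ex_gen (fun e : x = a => xY (e ▸ t.aY))
        (fun e : x = b => xX (e ▸ t.bX)) (fun e : x = c => xX (e ▸ t.cX))
      exact ⟨M, h1, fun e => hxg (huniq M h1 h3 h4 h5 x h2 g e (hBO x xX xY xZ) (hBO g gX gY gZ)),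
        by simp [One, h3, h4, h5], h2⟩) with
    ⟨S, hS, hcard, hgS, hred, hpen⟩ | ⟨B', -, hBc', hBb', hB'⟩
  · have h1 : ∀ M, Ln C r M → One a b c M → (S ∩ M).card = 1 := by
      intro M hM ho
      by_cases hgM : g ∈ M
      · refine hpen M hM hgM ?_
        rintro rfl
        simp [One, ha0, hb0, hc0] at ho
      · exact hred M hM hgM ho
    have na := no_vert h t hcard h1 (covers h hI hS t.lX)
    have nb := no_vert h t.rot hcard (fun M hM ho => h1 M hM (One.rot.1 ho)) (covers h hI hS t.lY)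
    have nc := no_vert h t.rot.rot hcard (fun M hM ho => h1 M hM (One.rot.1 (One.rot.1 ho)))
      (covers h hI hS t.lZ)
    obtain ⟨x, hx⟩ := hBc S hS na
    rw [mem_inter] at hx
    have xa : x ≠ a := fun e => na (e ▸ hx.2)
    have xb : x ≠ b := fun e => nb (e ▸ hx.2)
    have xc : x ≠ c := fun e => nc (e ▸ hx.2)
    obtain ⟨M, m1, m2, m3, m4, m5⟩ := h.ex_gen xa xb xc
    obtain ⟨y, hy, yX, yY, yZ⟩ := hex M m1 m3 m4
    obtain rfl : x = y := huniq M m1 m3 m4 m5 x m2 y hy hx.1 (hBO y yX yY yZ)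
    obtain ⟨La, la, xLa, aLa⟩ := h.ex_join xa
    obtain ⟨Lb, lb, xLb, bLb⟩ := h.ex_join xb
    obtain ⟨Lc, lc, xLc, cLc⟩ := h.ex_join xc
    have nab : ∀ N, Ln C r N → x ∈ N → a ∈ N → b ∉ N := fun N n1 n2 n3 e =>
      yZ (h.eq_of_two t.ab n1 t.lZ n3 e t.aZ t.bZ ▸ n2)
    have nac : ∀ N, Ln C r N → x ∈ N → a ∈ N → c ∉ N := fun N n1 n2 n3 e =>
      yY (h.eq_of_two t.ac n1 t.lY n3 e t.aY t.cY ▸ n2)
    have nbc : ∀ N, Ln C r N → x ∈ N → b ∈ N → c ∉ N := fun N n1 n2 n3 e =>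
      yX (h.eq_of_two t.bc n1 t.lX n3 e t.bX t.cX ▸ n2)
    have hsub : ({M, La, Lb, Lc} : Finset (Finset α)) ⊆ pen C r x := by
      intro N hN
      simp only [mem_insert, mem_singleton] at hN
      rcases hN with rfl | rfl | rfl | rfl <;> rw [mem_pen] <;> constructor <;> assumption
    have d1 : M ≠ La := fun e => m3 (e ▸ aLa)
    have d2 : M ≠ Lb := fun e => m4 (e ▸ bLb)
    have d3 : M ≠ Lc := fun e => m5 (e ▸ cLc)
    have d4 : La ≠ Lb := fun e => nab La la xLa aLa (e ▸ bLb)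
    have d5 : La ≠ Lc := fun e => nac La la xLa aLa (e ▸ cLc)
    have d6 : Lb ≠ Lc := fun e => nbc Lb lb xLb bLb (e ▸ cLc)
    have hc4 : ({M, La, Lb, Lc} : Finset (Finset α)).card = 4 := by
      rw [card_insert_of_notMem (by simp [d1, d2, d3]), card_insert_of_notMem (by simp [d4, d5]),
        card_pair d6]
    have heq := eq_of_subset_of_card_le hsub (by rw [h.card_pen, hc4, hr4])
    have hsM : S ⊆ M := by
      intro z hz
      by_cases hzx : z = x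
      · exact hzx ▸ m2
      obtain ⟨N, n1, n2, n3⟩ := h.ex_join hzx
      have hN : N ∈ ({M, La, Lb, Lc} : Finset (Finset α)) := heq ▸ mem_pen.2 ⟨n1, n3⟩
      have h2 : 1 < (S ∩ N).card :=
        one_lt_card.2 ⟨z, by simp [hz, n2], x, by simp [hx.2, n3], hzx⟩
      simp only [mem_insert, mem_singleton] at hN
      rcases hN with rfl | rfl | rfl | rfl
      · exact n2
      · have := h1 N n1 (Or.inl ⟨aLa, nab N n1 n3 aLa, nac N n1 n3 aLa⟩); omega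
      · have := h1 N n1 (Or.inr (Or.inl
          ⟨fun e => nab N n1 n3 e bLb, bLb, nbc N n1 n3 bLb⟩)); omega
      · have := h1 N n1 (Or.inr (Or.inr
          ⟨fun e => nac N n1 n3 e cLc, fun e => nbc N n1 n3 e cLc, cLc⟩)); omega
    have := card_le_card hsM
    have := m1.2
    omega
  · have ia := vert_in h t gX gY gZ hL0 hg0 ha0 hb0 hc0 hBc' hBb' hB'
    have ib := vert_in h t.rot gY gZ gX hL0 hg0 hb0 hc0 ha0 hBc'
      (fun M h1 h2 h3 => hBb' M h1 h2 (fun e => h3 (One.rot.2 e))) hB'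
    have h1 := hBb' Z t.lZ gZ (by simp [One, t.aZ, t.bZ])
    have : 1 < (B' ∩ Z).card :=
      one_lt_card.2 ⟨a, by simp [ia, t.aZ], b, by simp [ib, t.bZ], t.ab⟩
    omega

end Pool.Agent.H969Z.Mni
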