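import Mathlib

set_option autoImplicit false

namespace Pool.Agent.H969Z.Mni

open Finset

variable {α : Type} [Fintype α] [DecidableEq α]

/-- The set covering polyhedron of the deletion minor `C \ p`. -/
def Qd (C : Finset (Finset α)) (p : α) : Set (α → ℝ) :=
  {x | (∀ i, 0 ≤ x i) ∧ x p = 0 ∧ ∀ S ∈ C, p ∉ S → (1 : ℝ) ≤ ∑ i ∈ S, x i}

/-- The deletion minor `C \ p` is ideal. -/
def IdealDel (C : Finset (Finset α)) (p : α) : Prop :=
  ∀ x ∈ Set.extremePoints ℝ (Qd C p), ∀ i, ∃ z : ℤ, x i = (z : ℝ)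

theorem poly {C : Finset (Finset α)} {p : α} (hI : IdealDel C p) (blue : Finset α → Prop)
    (hb : ∀ M, blue M → M ∈ C ∧ p ∉ M) (hcov : ∀ f, f ≠ p → ∃ M, blue M ∧ f ∈ M)
    (y : α → ℝ) (hy : y ∈ Qd C p) (hyb : ∀ M, blue M → ∑ i ∈ M, y i = 1) (W : Finset α) :
    ∃ B : Finset α, p ∉ B ∧ (∀ S ∈ C, p ∉ S → (B ∩ S).Nonempty) ∧
      (∀ M, blue M → (B ∩ M).card = 1) ∧ ∑ i ∈ W, y i ≤ ((B ∩ W).card : ℝ) := by
  set Φ : Set (α → ℝ) := {x | x ∈ Qd C p ∧ ∀ M, blue M → ∑ i ∈ M, x i = 1} with hΦ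
  have hle : ∀ x ∈ Φ, ∀ i, x i ≤ 1 := by
    intro x hx i
    by_cases hi : i = p
    · rw [hi, hx.1.2.1]; norm_num
    · obtain ⟨M, hM, hiM⟩ := hcov i hi
      rw [← hx.2 M hM]
      exact single_le_sum (fun j _ => hx.1.1 j) hiM
  have hclosed : IsClosed Φ := by
    have e : Φ = (⋂ i, {x : α → ℝ | 0 ≤ x i}) ∩ ({x | x p = 0} ∩
        (⋂ S ∈ C, ⋂ (_ : p ∉ S), {x | (1 : ℝ) ≤ ∑ i ∈ S, x i})) ∩
        ⋂ M, ⋂ (_ : blue M), {x | ∑ i ∈ M, x i = 1} := by
      ext x; simp [hΦ, Qd]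
    rw [e]
    refine ((isClosed_iInter fun i => isClosed_le continuous_const (continuous_apply i)).inter
      ((isClosed_eq (continuous_apply p) continuous_const).inter ?_)).inter ?_
    · exact isClosed_biInter fun S _ => isClosed_iInter fun _ =>
        isClosed_le continuous_const (by fun_prop)
    · exact isClosed_iInter fun M => isClosed_iInter fun _ =>
        isClosed_eq (by fun_prop) continuous_const
  have hcomp : IsCompact Φ := by
    refine (isCompact_Icc (a := (0 : α → ℝ)) (b := 1)).of_isClosed_subset hclosed ?_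
    intro x hx
    exact ⟨fun i => hx.1.1 i, fun i => hle x hx i⟩
  have hext : IsExtreme ℝ (Qd C p) Φ := by
    refine ⟨fun x hx => hx.1, ?_⟩
    rintro x hx x' hx' z hz ⟨a, b, ha, hb', hab, rfl⟩
    refine ⟨hx, fun M hM => ?_⟩
    have h1 := hx.2.2 M (hb M hM).1 (hb M hM).2
    have h2 := hx'.2.2 M (hb M hM).1 (hb M hM).2
    have h3 := hz.2 M hM
    simp only [Pi.add_apply, Pi.smul_apply, smul_eq_mul, sum_add_distrib, ← mul_sum] at h3
    nlinarith
  let l : (α → ℝ) →L[ℝ] ℝ := ∑ i ∈ W, ContinuousLinearMap.proj i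
  have hl : ∀ x, l x = ∑ i ∈ W, x i := fun x => by simp [l]
  have hexp : IsExposed ℝ Φ (l.toExposed Φ) := ContinuousLinearMap.toExposed.isExposed
  have hne : (l.toExposed Φ).Nonempty := by
    obtain ⟨x, hx, hmax⟩ := hcomp.exists_isMaxOn ⟨y, hy, hyb⟩ l.continuous.continuousOn
    exact ⟨x, hx, fun z hz => hmax hz⟩
  obtain ⟨v, hv⟩ := (hexp.isCompact hcomp).extremePoints_nonempty hne
  have hvΦ : v ∈ Φ := hv.1.1
  have hvmax : l y ≤ l v := hv.1.2 y ⟨hy, hyb⟩
  have hvQ := (hext.trans hexp.isExtreme).extremePoints_subset_extremePoints hv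
  have h01 : ∀ i, v i = 0 ∨ v i = 1 := by
    intro i
    obtain ⟨z, hz⟩ := hI v hvQ i
    have h0 := hvΦ.1.1 i
    have h1 := hle v hvΦ i
    rw [hz] at h0 h1 ⊢
    have h0' : 0 ≤ z := by exact_mod_cast h0
    have h1' : z ≤ 1 := by exact_mod_cast h1
    rcases (by omega : z = 0 ∨ z = 1) with h | h <;> simp [h]
  classical
  set B : Finset α := univ.filter (fun i => v i = 1) with hB
  have hsum : ∀ S : Finset α, ∑ i ∈ S, v i = ((B ∩ S).card : ℝ) := by
    intro S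
    have : B ∩ S = S.filter (fun i => v i = 1) := by ext i; simp [hB, and_comm]
    rw [this, card_filter]
    push_cast
    refine sum_congr rfl fun i _ => ?_
    rcases h01 i with h | h <;> simp [h]
  refine ⟨B, ?_, fun S hS hp => ?_, fun M hM => ?_, ?_⟩
  · simp [hB, hvΦ.1.2.1]
  · have := hvΦ.1.2.2 S hS hp
    rw [hsum] at this
    rw [← card_pos]
    have : 1 ≤ (B ∩ S).card := by exact_mod_cast this
    omega
  · have := hvΦ.2 M hM
    rw [hsum] at this
    exact_mod_cast this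
  · rw [← hsum, ← hl, ← hl]; exact hvmax

end Pool.Agent.H969Z.Mni
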