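import Mathlib

set_option autoImplicit false

namespace Pool.Agent.H969Z.MonoPart

open Finset SimpleGraph

variable {V : Type}

/-- Steps of `H` inside `S`. -/
def St (H : SimpleGraph V) (S : Set V) (a b : V) : Prop := a ∈ S ∧ b ∈ S ∧ H.Adj a b

lemma conn_of (H : SimpleGraph V) (S : Set V) (u : V) (hu : u ∈ S)
    (h : ∀ x ∈ S, Relation.ReflTransGen (St H S) u x) : (H.induce S).Connected := by
  have key : ∀ x, Relation.ReflTransGen (St H S) u x → ∀ hx : x ∈ S,
      (H.induce S).Reachable ⟨u, hu⟩ ⟨x, hx⟩ := by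
    intro x hx
    induction hx with
    | refl => intro _; rfl
    | tail _ h2 ih =>
      intro hx
      exact (ih h2.1).trans (Adj.reachable (show (H.induce S).Adj ⟨_, h2.1⟩ ⟨_, hx⟩ from h2.2.2))
  have : Nonempty S := ⟨⟨u, hu⟩⟩
  exact ⟨fun a b => (key _ (h _ a.2) a.2).symm.trans (key _ (h _ b.2) b.2)⟩

lemma comp_conn (H : SimpleGraph V) (u : V) :
    (H.induce {w | H.connectedComponentMk w = H.connectedComponentMk u}).Connected := by
  refine conn_of H _ u rfl fun x hx => ?_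
  have h1 : H.Reachable u x := (ConnectedComponent.exact hx).symm
  rw [reachable_iff_reflTransGen] at h1
  clear hx
  induction h1 with
  | refl => exact .refl
  | tail h1 h2 ih =>
    rw [← reachable_iff_reflTransGen] at h1
    exact ih.tail ⟨ConnectedComponent.sound h1.symm,
      ConnectedComponent.sound (h1.trans h2.reachable).symm, h2⟩

lemma konig {ι κ : Type} (ρ : V → ι) (γ : V → κ) (x : V)
    (h : ∀ x y z, ρ x = ρ y ∨ γ x = γ y ∨ ρ x = ρ z ∨ γ x = γ z ∨ ρ y = ρ z ∨ γ y = γ z) :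
    ∃ u v, (∀ w, ρ w = ρ u ∨ ρ w = ρ v) ∨ (∀ w, γ w = γ u ∨ γ w = γ v) ∨
      (∀ w, ρ w = ρ u ∨ γ w = γ v) := by
  by_contra hc
  push Not at hc
  obtain ⟨y, hy⟩ := (hc x x).2.2
  obtain ⟨w1, h1⟩ := (hc x y).1
  obtain ⟨w2, h2⟩ := (hc x y).2.1
  obtain ⟨w3, h3⟩ := (hc x y).2.2
  obtain ⟨w4, h4⟩ := (hc y x).2.2
  have := h x y w1
  have := h x y w2
  have := h w1 w2 y
  have := h w1 w2 x
  have := h x y w4
  have := h x w2 w4
  have := h w1 y w4
  have := h w1 w2 w4
  have := h x y w3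
  have := h x w1 w3
  have := h w2 y w3
  have := h w1 w2 w3
  grind

variable [Fintype V] [DecidableEq V]

/-- The non-neighbours. -/
def NN (G : SimpleGraph V) [DecidableRel G.Adj] (v : V) : Finset V :=
  univ.filter (fun w => w ≠ v ∧ ¬ G.Adj v w)

variable {G : SimpleGraph V} [DecidableRel G.Adj]

lemma mem_NN {v w : V} : w ∈ NN G v ↔ w ≠ v ∧ ¬ G.Adj v w := by simp [NN]

/-- Linking data for `A` through `X`. -/
def Link (G : SimpleGraph V) (A X : Finset V) (u : V) : Prop :=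
  (∀ w ∈ X, G.Adj u w) ∧ ∀ x ∈ A, x = u ∨ ∃ w ∈ X, G.Adj x w

lemma link1 {A I T : Finset V} {u : V} (hu : u ∈ A) (hAI : Disjoint A I) {α : ℕ}
    (h : ∀ x ∈ A, (I ∩ NN G x).card ≤ α) (hT : T.card + 2 * α < I.card) :
    ∃ X : Finset V, X ⊆ I ∧ Disjoint X T ∧ X.card + 1 ≤ A.card ∧ Link G A X u := by
  have hex : ∀ x ∈ A, ∃ w ∈ I, w ∉ T ∧ G.Adj u w ∧ G.Adj x w := by
    intro x hx
    have h1 := card_union_le T ((I ∩ NN G u) ∪ (I ∩ NN G x))
    have h2 := card_union_le (I ∩ NN G u) (I ∩ NN G x)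
    have h3 := h u hu
    have h4 := h x hx
    obtain ⟨w, hw, hw'⟩ := exists_mem_notMem_of_card_lt_card
      (by omega : (T ∪ ((I ∩ NN G u) ∪ (I ∩ NN G x))).card < I.card)
    have e1 : w ≠ u := fun e => disjoint_left.1 hAI hu (e ▸ hw)
    have e2 : w ≠ x := fun e => disjoint_left.1 hAI hx (e ▸ hw)
    simp only [mem_union, mem_inter, mem_NN, not_or] at hw'
    exact ⟨w, hw, hw'.1, by tauto, by tauto⟩
  choose! g hg using hex
  refine ⟨(A.erase u).image g, ?_, ?_, ?_, ?_, ?_⟩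
  · intro w hw
    obtain ⟨x, hx, rfl⟩ := mem_image.1 hw
    exact (hg x (mem_of_mem_erase hx)).1
  · rw [Finset.disjoint_left]
    intro w hw
    obtain ⟨x, hx, rfl⟩ := mem_image.1 hw
    exact (hg x (mem_of_mem_erase hx)).2.1
  · have := card_image_le (s := A.erase u) (f := g)
    have := card_erase_add_one hu
    omega
  · intro w hw
    obtain ⟨x, hx, rfl⟩ := mem_image.1 hw
    exact (hg x (mem_of_mem_erase hx)).2.2.1
  · intro x hx
    by_cases e : x = u
    · exact Or.inl e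
    · exact Or.inr ⟨g x, mem_image_of_mem _ (mem_erase.2 ⟨e, hx⟩), (hg x hx).2.2.2⟩

lemma link2 {A I T : Finset V} {u : V} (hu : u ∈ A) (hAI : Disjoint A I)
    (h : ∀ x ∈ A, (I ∩ NN G x).card ≤ 1) (h0 : (I ∩ NN G u).card = 0)
    (hT : T.card + A.card ≤ I.card) :
    ∃ X : Finset V, X ⊆ I ∧ Disjoint X T ∧ X.card = 1 ∧ Link G A X u := by
  have h1 : ((A.erase u).biUnion (fun x => I ∩ NN G x)).card ≤ (A.erase u).card * 1 :=
    card_biUnion_le_card_mul _ _ _ (fun x hx => h x (mem_of_mem_erase hx))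
  have h3 := card_erase_add_one hu
  have h4 := card_union_le T ((A.erase u).biUnion (fun x => I ∩ NN G x))
  obtain ⟨w, hw, hw'⟩ := exists_mem_notMem_of_card_lt_card
    (by omega : (T ∪ (A.erase u).biUnion (fun x => I ∩ NN G x)).card < I.card)
  simp only [mem_union, mem_biUnion, not_or, not_exists, not_and] at hw'
  have hall : ∀ x ∈ A, G.Adj x w := by
    intro x hx
    have e2 : w ≠ x := fun e => disjoint_left.1 hAI hx (e ▸ hw)
    by_contra hn
    have hm : w ∈ I ∩ NN G x := mem_inter.2 ⟨hw, mem_NN.2 ⟨e2, hn⟩⟩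
    by_cases e : x = u
    · subst e
      rw [card_eq_zero] at h0
      simp [h0] at hm
    · exact hw'.2 x (mem_erase.2 ⟨e, hx⟩) hm
  refine ⟨{w}, by simpa using hw, by simpa using hw'.1, by simp, by simpa using hall u hu,
    fun x hx => Or.inr ⟨w, by simp, hall x hx⟩⟩

lemma budget {k : ℕ} (hk : ∀ v, (NN G v).card ≤ k) {x : V} {P Q : Finset V} (hP : P ⊆ NN G x)
    (hPQ : Disjoint P Q) : (Q ∩ NN G x).card + P.card ≤ k := by
  rw [← card_union_of_disjoint (Disjoint.mono_left inter_subset_left hPQ.symm)]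
  exact (card_le_card (union_subset inter_subset_right hP)).trans (hk x)

/-- The main splitting lemma. -/
theorem split (R B : SimpleGraph V) (hG : ∀ x y, G.Adj x y → R.Adj x y ∨ B.Adj x y) {k : ℕ}
    (hk : ∀ v, (NN G v).card ≤ k) {A C I : Finset V} (hAC : Disjoint A C) (hAI : Disjoint A I)
    (hCI : Disjoint C I) (hall : ∀ w, w ∈ A ∨ w ∈ C ∨ w ∈ I)
    (hn : 3 * k ≤ A.card + C.card + I.card + 2)
    (nAC : ∀ x ∈ A, ∀ y ∈ C, ¬ G.Adj x y)
    (rAI : ∀ x ∈ A, ∀ w ∈ I, G.Adj x w → R.Adj x w)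
    (bCI : ∀ x ∈ C, ∀ w ∈ I, G.Adj x w → B.Adj x w)
    {u u' v v' : V} (hu : u ∈ A) (hu' : u' ∈ A) (huu : u' ∈ NN G u)
    (hv : v ∈ C) (hv' : v' ∈ C) (hvv : v' ∈ NN G v) :
    ∃ S : Set V, (R.induce S).Connected ∧ (B.induce Sᶜ).Connected := by
  classical
  have cA : ∀ x ∈ A, C ⊆ NN G x := fun x hx y hy =>
    mem_NN.2 ⟨fun e => disjoint_left.1 hAC hx (e ▸ hy), nAC x hx y hy⟩
  have cC : ∀ y ∈ C, A ⊆ NN G y := fun y hy x hx =>
    mem_NN.2 ⟨fun e => disjoint_left.1 hAC hx (e ▸ hy), fun e => nAC x hx y hy e.symm⟩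
  have bA : ∀ x ∈ A, (I ∩ NN G x).card + C.card ≤ k := fun x hx => budget hk (cA x hx) hCI
  have bC : ∀ x ∈ C, (I ∩ NN G x).card + A.card ≤ k := fun x hx => budget hk (cC x hx) hAI
  have bu : (I ∩ NN G u).card + (C.card + 1) ≤ k := by
    rw [← card_insert_of_notMem (disjoint_left.1 hAC hu')]
    exact budget hk (insert_subset huu (cA u hu))
      (disjoint_insert_left.2 ⟨disjoint_left.1 hAI hu', hCI⟩)
  have bv : (I ∩ NN G v).card + (A.card + 1) ≤ k := by
    rw [← card_insert_of_notMem (disjoint_right.1 hAC hv')]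
    exact budget hk (insert_subset hvv (cC v hv))
      (disjoint_insert_left.2 ⟨disjoint_left.1 hCI hv', hAI⟩)
  have a2 : 2 ≤ A.card := one_lt_card.2 ⟨u', hu', u, hu, (mem_NN.1 huu).1⟩
  have c2 : 2 ≤ C.card := one_lt_card.2 ⟨v', hv', v, hv, (mem_NN.1 hvv).1⟩
  obtain ⟨X, Y, hXI, hYI, hXY, hcard, lX, lY⟩ : ∃ X Y : Finset V, X ⊆ I ∧ Y ⊆ I ∧ Disjoint X Y ∧
      X.card + Y.card + 2 ≤ A.card + C.card ∧ Link G A X u ∧ Link G C Y v := by
    by_cases h1 : C.card + 2 ≤ k
    · obtain ⟨X, x1, -, x3, x4⟩ := link1 (G := G) (T := ∅) (α := k - C.card) hu hAI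
        (fun x hx => by have := bA x hx; omega) (by simp only [card_empty]; omega)
      obtain ⟨Y, y1, y2, y3, y4⟩ := link1 (G := G) (T := X) (α := k - A.card) hv hCI
        (fun x hx => by have := bC x hx; omega) (by omega)
      exact ⟨X, Y, x1, y1, y2.symm, by omega, x4, y4⟩
    by_cases h2 : A.card + 2 ≤ k
    · obtain ⟨Y, y1, -, y3, y4⟩ := link1 (G := G) (T := ∅) (α := k - A.card) hv hCI
        (fun x hx => by have := bC x hx; omega) (by simp only [card_empty]; omega)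
      obtain ⟨X, x1, x2, x3, x4⟩ := link1 (G := G) (T := Y) (α := k - C.card) hu hAI
        (fun x hx => by have := bA x hx; omega) (by omega)
      exact ⟨X, Y, x1, y1, x2, by omega, x4, y4⟩
    · obtain ⟨X, x1, -, x3, x4⟩ := link2 (G := G) (T := ∅) hu hAI
        (fun x hx => by have := bA x hx; omega) (by omega) (by simp only [card_empty]; omega)
      obtain ⟨Y, y1, y2, y3, y4⟩ := link2 (G := G) (T := X) hv hCI
        (fun x hx => by have := bC x hx; omega) (by omega) (by omega)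
      exact ⟨X, Y, x1, y1, y2.symm, by omega, x4, y4⟩
  set F : Finset V := I.filter (fun z => (∀ x ∈ A, ¬ G.Adj x z) ∧ ∀ y ∈ C, ¬ G.Adj y z) with hF
  have mF : ∀ z, z ∈ F ↔ z ∈ I ∧ (∀ x ∈ A, ¬ G.Adj x z) ∧ ∀ y ∈ C, ¬ G.Adj y z := fun z => by
    simp [hF]
  have hFI : F ⊆ I := filter_subset _ _
  set J : Finset V := I \ F with hJ
  have hJc : J.card + F.card = I.card := card_sdiff_add_card_eq_card hFI
  have hJF : Disjoint F J := Finset.disjoint_sdiff
  have hJI : J ⊆ I := sdiff_subset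
  have ju : (J ∩ NN G u).card + (C.card + F.card) ≤ k := by
    rw [← card_union_of_disjoint (hCI.mono_right hFI)]
    refine budget hk (union_subset (cA u hu) fun z hz => mem_NN.2 ⟨?_, ((mF z).1 hz).2.1 u hu⟩)
      (disjoint_union_left.2 ⟨hCI.mono_right hJI, hJF⟩)
    exact fun e => disjoint_left.1 hAI hu (e ▸ hFI hz)
  have jv : (J ∩ NN G v).card + (A.card + F.card) ≤ k := by
    rw [← card_union_of_disjoint (hAI.mono_right hFI)]
    refine budget hk (union_subset (cC v hv) fun z hz => mem_NN.2 ⟨?_, ((mF z).1 hz).2.2 v hv⟩)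
      (disjoint_union_left.2 ⟨hAI.mono_right hJI, hJF⟩)
    exact fun e => disjoint_left.1 hCI hv (e ▸ hFI hz)
  have jz : ∀ z ∈ F, (J ∩ NN G z).card + (A.card + C.card) ≤ k := by
    intro z hz
    rw [← card_union_of_disjoint hAC]
    refine budget hk (union_subset (fun x hx => mem_NN.2 ⟨?_, fun e => ((mF z).1 hz).2.1 x hx e.symm⟩)
      (fun x hx => mem_NN.2 ⟨?_, fun e => ((mF z).1 hz).2.2 x hx e.symm⟩))
      (disjoint_union_left.2 ⟨hAI.mono_right hJI, hCI.mono_right hJI⟩)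
    · exact fun e => disjoint_left.1 hAI hx (e ▸ hFI hz)
    · exact fun e => disjoint_left.1 hCI hx (e ▸ hFI hz)
  set t : V → Finset V := fun z =>
    J \ ((X ∪ Y) ∪ ((J ∩ NN G u) ∪ ((J ∩ NN G v) ∪ (J ∩ NN G z)))) with ht
  have htc : ∀ z ∈ F, F.card ≤ (t z).card := by
    intro z hz
    have h1 := le_card_sdiff ((X ∪ Y) ∪ ((J ∩ NN G u) ∪ ((J ∩ NN G v) ∪ (J ∩ NN G z)))) J
    have h2 := card_union_le (X ∪ Y) ((J ∩ NN G u) ∪ ((J ∩ NN G v) ∪ (J ∩ NN G z)))
    have h3 := card_union_le (J ∩ NN G u) ((J ∩ NN G v) ∪ (J ∩ NN G z))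
    have h4 := card_union_le (J ∩ NN G v) (J ∩ NN G z)
    have h5 := card_union_le X Y
    have h6 := jz z hz
    simp only [ht]
    omega
  obtain ⟨m0, hm0, hm0'⟩ := (all_card_le_biUnion_card_iff_exists_injective
      (fun z : {z // z ∈ F} => t z)).1 (by
    intro s
    rcases s.eq_empty_or_nonempty with rfl | ⟨z, hz⟩
    · simp
    · have h1 : s.card ≤ F.card := by simpa using card_le_univ s
      exact h1.trans ((htc z z.2).trans (card_le_card (subset_biUnion_of_mem (fun z : {z // z ∈ F} => t z) hz))))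
  set m : V → V := fun z => if hz : z ∈ F then m0 ⟨z, hz⟩ else z with hm
  have minj : ∀ z ∈ F, ∀ z' ∈ F, m z = m z' → z = z' := by
    intro z hz z' hz' e
    simp only [hm, dif_pos hz, dif_pos hz'] at e
    exact congrArg Subtype.val (hm0 e)
  have mp : ∀ z ∈ F, m z ∈ I ∧ m z ∉ F ∧ m z ∉ X ∧ m z ∉ Y ∧ G.Adj u (m z) ∧ G.Adj v (m z) ∧
      G.Adj z (m z) := by
    intro z hz
    have h1 : m z ∈ t z := by simpa only [hm, dif_pos hz] using hm0' ⟨z, hz⟩
    simp only [ht, mem_sdiff, mem_union, mem_inter, mem_NN, not_or] at h1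
    obtain ⟨h2, ⟨h3, h4⟩, h5, h6, h7⟩ := h1
    have h8 := mem_sdiff.1 h2
    have e1 : m z ≠ u := fun e => disjoint_left.1 hAI hu (e ▸ h8.1)
    have e2 : m z ≠ v := fun e => disjoint_left.1 hCI hv (e ▸ h8.1)
    have e3 : m z ≠ z := fun e => h8.2 (e.symm ▸ hz)
    exact ⟨h8.1, h8.2, h3, h4, by_contra fun e => h5 ⟨h2, e1, e⟩, by_contra fun e => h6 ⟨h2, e2, e⟩,
      by_contra fun e => h7 ⟨h2, e3, e⟩⟩
  clear_value m
  set P : V → Prop := fun w => w ∈ X ∨ (w ∈ F ∧ R.Adj w (m w)) ∨ (∃ z ∈ F, m z = w ∧ R.Adj z w) ∨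
    (w ∉ Y ∧ (∀ z ∈ F, m z ≠ w) ∧ ∃ x ∈ A, G.Adj x w) with hP
  set S : Set V := {w | w ∈ A ∨ (w ∈ I ∧ P w)} with hS
  have hSc : ∀ w, w ∈ Sᶜ ↔ w ∈ C ∨ (w ∈ I ∧ ¬ P w) := by
    intro w
    have h1 := hall w
    have h2 : w ∈ A → w ∉ C := fun h => disjoint_left.1 hAC h
    have h3 : w ∈ A → w ∉ I := fun h => disjoint_left.1 hAI h
    have h4 : w ∈ C → w ∉ I := fun h => disjoint_left.1 hCI h
    constructor
    · intro hw
      rcases h1 with h | h | h
      · exact absurd (Or.inl h) hw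
      · exact Or.inl h
      · exact Or.inr ⟨h, fun e => hw (Or.inr ⟨h, e⟩)⟩
    · rintro (h | h) (e | e)
      · exact h2 e h
      · exact h4 h e.1
      · exact h3 e h.1
      · exact h.2 e.2
  refine ⟨S, conn_of R S u (Or.inl hu) ?_, conn_of B Sᶜ v ((hSc v).2 (Or.inl hv)) ?_⟩
  · have uS : u ∈ S := Or.inl hu
    have r1 : ∀ w ∈ I, P w → G.Adj u w → Relation.ReflTransGen (St R S) u w :=
      fun w hw hp ha => .single ⟨uS, Or.inr ⟨hw, hp⟩, rAI u hu w hw ha⟩
    have r2 : ∀ x ∈ A, Relation.ReflTransGen (St R S) u x := by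
      intro x hx
      rcases lX.2 x hx with rfl | ⟨w, hw, ha⟩
      · exact .refl
      · exact (r1 w (hXI hw) (Or.inl hw) (lX.1 w hw)).tail
          ⟨Or.inr ⟨hXI hw, Or.inl hw⟩, Or.inl hx, (rAI x hx w (hXI hw) ha).symm⟩
    rintro w (hw | ⟨hw, hp⟩)
    · exact r2 w hw
    · have hp' := hp
      rcases hp' with h1 | ⟨h1, h2⟩ | ⟨z, hz, rfl, h2⟩ | ⟨-, -, x, hx, h2⟩
      · exact r1 w hw hp (lX.1 w h1)
      · have pm : P (m w) := Or.inr (Or.inr (Or.inl ⟨w, h1, rfl, h2⟩))
        exact (r1 _ (mp w h1).1 pm (mp w h1).2.2.2.2.1).tail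
          ⟨Or.inr ⟨(mp w h1).1, pm⟩, Or.inr ⟨hw, hp⟩, h2.symm⟩
      · exact r1 _ hw hp (mp z hz).2.2.2.2.1
      · exact (r2 x hx).tail ⟨Or.inl hx, Or.inr ⟨hw, hp⟩, rAI x hx w hw h2⟩
  · have vS : v ∈ Sᶜ := (hSc v).2 (Or.inl hv)
    have r1 : ∀ w ∈ I, ¬ P w → G.Adj v w → Relation.ReflTransGen (St B Sᶜ) v w :=
      fun w hw hp ha => .single ⟨vS, (hSc w).2 (Or.inr ⟨hw, hp⟩), bCI v hv w hw ha⟩
    have nY : ∀ w ∈ Y, ¬ P w := by
      rintro w hw (h1 | ⟨h1, -⟩ | ⟨z, hz, rfl, -⟩ | ⟨h1, -⟩)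
      · exact disjoint_left.1 hXY h1 hw
      · exact ((mF w).1 h1).2.2 v hv (lY.1 w hw)
      · exact (mp z hz).2.2.2.1 hw
      · exact h1 hw
    have r2 : ∀ x ∈ C, Relation.ReflTransGen (St B Sᶜ) v x := by
      intro x hx
      rcases lY.2 x hx with rfl | ⟨w, hw, ha⟩
      · exact .refl
      · exact (r1 w (hYI hw) (nY w hw) (lY.1 w hw)).tail
          ⟨(hSc w).2 (Or.inr ⟨hYI hw, nY w hw⟩), (hSc x).2 (Or.inl hx),
            (bCI x hx w (hYI hw) ha).symm⟩
    intro w hw0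
    rcases (hSc w).1 hw0 with hw | ⟨hw, hp⟩
    · exact r2 w hw
    by_cases wF : w ∈ F
    · have nR : ¬ R.Adj w (m w) := fun e => hp (Or.inr (Or.inl ⟨wF, e⟩))
      have pm : ¬ P (m w) := by
        rintro (h1 | ⟨h1, -⟩ | ⟨z, hz, e, h1⟩ | ⟨-, h1, -⟩)
        · exact (mp w wF).2.2.1 h1
        · exact (mp w wF).2.1 h1
        · exact nR (minj z hz w wF e ▸ h1)
        · exact h1 w wF rfl
      exact (r1 _ (mp w wF).1 pm (mp w wF).2.2.2.2.2.1).tail
        ⟨(hSc _).2 (Or.inr ⟨(mp w wF).1, pm⟩), hw0,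
          ((hG _ _ (mp w wF).2.2.2.2.2.2).resolve_left nR).symm⟩
    by_cases wY : w ∈ Y
    · exact r1 w hw hp (lY.1 w wY)
    by_cases wm : ∃ z ∈ F, m z = w
    · obtain ⟨z, hz, rfl⟩ := wm
      exact r1 _ hw hp (mp z hz).2.2.2.2.2.1
    · push Not at wm
      have h1 : ∀ x ∈ A, ¬ G.Adj x w := fun x hx e =>
        hp (Or.inr (Or.inr (Or.inr ⟨wY, wm, x, hx, e⟩)))
      obtain ⟨y, hy, e⟩ : ∃ y ∈ C, G.Adj y w := by
        by_contra hn'
        push Not at hn'
        exact wF ((mF w).2 ⟨hw, h1, hn'⟩)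
      exact (r2 y hy).tail ⟨(hSc y).2 (Or.inl hy), hw0, bCI y hy w hw e⟩

/-- Empty or connected in one of the two colours. -/
def Good (R B : SimpleGraph V) (S : Set V) : Prop :=
  S = ∅ ∨ (R.induce S).Connected ∨ (B.induce S).Connected

lemma not_good (R B : SimpleGraph V) (hG : ∀ x y, G.Adj x y → R.Adj x y ∨ B.Adj x y) {S : Set V}
    (h : ¬ Good R B S) : ∃ u ∈ S, ∃ u' ∈ S, u' ∈ NN G u := by
  by_contra hc
  push Not at hc
  apply h
  rcases S.eq_empty_or_nonempty with rfl | ⟨x, hx⟩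
  · exact Or.inl rfl
  have : Nonempty S := ⟨⟨x, hx⟩⟩
  rcases (R.induce S).connected_or_connected_compl with h1 | h1
  · exact Or.inr (Or.inl h1)
  · refine Or.inr (Or.inr (h1.mono fun a b hab => ?_))
    rw [compl_adj] at hab
    have h2 := hc a a.2 b b.2
    rw [mem_NN, not_and, not_not] at h2
    exact (hG _ _ (h2 fun e => hab.1 (Subtype.ext e.symm))).resolve_left hab.2

omit [Fintype V] [DecidableEq V] in
lemma two_comp (H : SimpleGraph V) (u v : V)
    (h : ∀ w, H.connectedComponentMk w = H.connectedComponentMk u ∨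
      H.connectedComponentMk w = H.connectedComponentMk v) :
    ∃ S : Set V, (H.induce S).Connected ∧ (Sᶜ = ∅ ∨ (H.induce Sᶜ).Connected) := by
  refine ⟨_, comp_conn H u, ?_⟩
  by_cases e : H.connectedComponentMk u = H.connectedComponentMk v
  · left
    ext w
    have := h w
    simp only [Set.mem_compl_iff, Set.mem_ofPred_eq, Set.mem_empty_iff_false, iff_false, not_not]
    grind
  · right
    have : {w | H.connectedComponentMk w = H.connectedComponentMk u}ᶜ =
        {w | H.connectedComponentMk w = H.connectedComponentMk v} := by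
      ext w
      have := h w
      simp only [Set.mem_compl_iff, Set.mem_ofPred_eq]
      grind
    rw [this]
    exact comp_conn H v

theorem main (R B : SimpleGraph V) (hG : ∀ x y, G.Adj x y ↔ R.Adj x y ∨ B.Adj x y)
    (hd : 2 * Fintype.card V ≤ 3 * G.minDegree + 5) :
    ∃ S : Set V, Good R B S ∧ Good R B Sᶜ := by
  classical
  rcases isEmpty_or_nonempty V with hV | ⟨⟨x0⟩⟩
  · exact ⟨∅, Or.inl rfl, Or.inl (Set.eq_empty_of_isEmpty _)⟩
  set k := (Fintype.card V + 2) / 3 with hkd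
  have hk : ∀ v, (NN G v).card ≤ k := by
    intro v
    have h1 : NN G v = univ \ insert v (G.neighborFinset v) := by
      ext w; simp [NN]
    have h2 : (NN G v).card + (G.degree v + 1) = Fintype.card V := by
      rw [h1, ← card_neighborFinset_eq_degree,
        ← card_insert_of_notMem (G.notMem_neighborFinset_self v)]
      exact card_sdiff_add_card_eq_card (subset_univ _)
    have := G.minDegree_le_degree v
    omega
  have hn : 3 * k ≤ Fintype.card V + 2 := by omega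
  clear_value k
  set ρ := R.connectedComponentMk with hρ
  set γ := B.connectedComponentMk with hγ
  have hadj : ∀ x y, G.Adj x y → ρ x = ρ y ∨ γ x = γ y := fun x y e =>
    ((hG x y).1 e).imp (fun e => ConnectedComponent.sound e.reachable)
      (fun e => ConnectedComponent.sound e.reachable)
  obtain ⟨u, v, huv⟩ := konig ρ γ x0 (by
    intro x y z
    by_contra hc
    push Not at hc
    obtain ⟨h1, h2, h3, h4, h5, h6⟩ := hc
    have exy : x ≠ y := fun e => h1 (e ▸ rfl)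
    have exz : x ≠ z := fun e => h3 (e ▸ rfl)
    have eyz : y ≠ z := fun e => h5 (e ▸ rfl)
    set T : Finset V := {x, y, z} with hT
    have hTc : T.card = 3 := card_eq_three.2 ⟨x, y, z, exy, exz, eyz, rfl⟩
    have nxy : ¬ G.Adj x y := fun e => by have := hadj _ _ e; tauto
    have nxz : ¬ G.Adj x z := fun e => by have := hadj _ _ e; tauto
    have nyz : ¬ G.Adj y z := fun e => by have := hadj _ _ e; tauto
    have b1 := budget hk (x := x) (P := {y, z}) (Q := Tᶜ)
      (by intro w hw; simp only [mem_insert, mem_singleton] at hw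
          rcases hw with rfl | rfl
          · exact mem_NN.2 ⟨exy.symm, nxy⟩
          · exact mem_NN.2 ⟨exz.symm, nxz⟩)
      (by simp [hT])
    have b2 := budget hk (x := y) (P := {x, z}) (Q := Tᶜ)
      (by intro w hw; simp only [mem_insert, mem_singleton] at hw
          rcases hw with rfl | rfl
          · exact mem_NN.2 ⟨exy, fun e => nxy e.symm⟩
          · exact mem_NN.2 ⟨eyz.symm, nyz⟩)
      (by simp [hT])
    have b3 := budget hk (x := z) (P := {x, y}) (Q := Tᶜ)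
      (by intro w hw; simp only [mem_insert, mem_singleton] at hw
          rcases hw with rfl | rfl
          · exact mem_NN.2 ⟨exz, fun e => nxz e.symm⟩
          · exact mem_NN.2 ⟨eyz, fun e => nyz e.symm⟩)
      (by simp [hT])
    rw [card_pair eyz] at b1
    rw [card_pair exz] at b2
    rw [card_pair exy] at b3
    have hsub : Tᶜ ⊆ (Tᶜ ∩ NN G x) ∪ ((Tᶜ ∩ NN G y) ∪ (Tᶜ ∩ NN G z)) := by
      intro w hw
      have hw' := hw
      simp only [hT, mem_compl, mem_insert, mem_singleton, not_or] at hw'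
      simp only [mem_union, mem_inter, mem_NN, hw, true_and]
      by_contra hc
      push Not at hc
      have a1 := hadj _ _ (hc.1 hw'.1)
      have a2 := hadj _ _ (hc.2.1 hw'.2.1)
      have a3 := hadj _ _ (hc.2.2 hw'.2.2)
      grind
    have c1 := card_le_card hsub
    have c2 := card_union_le (Tᶜ ∩ NN G x) ((Tᶜ ∩ NN G y) ∪ (Tᶜ ∩ NN G z))
    have c3 := card_union_le (Tᶜ ∩ NN G y) (Tᶜ ∩ NN G z)
    have c4 := card_add_card_compl T
    omega)
  rcases huv with h | h | h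
  · obtain ⟨S, h1, h2⟩ := two_comp R u v h
    exact ⟨S, Or.inr (Or.inl h1), h2.imp id Or.inl⟩
  · obtain ⟨S, h1, h2⟩ := two_comp B u v h
    exact ⟨S, Or.inr (Or.inr h1), h2.imp id Or.inr⟩
  by_cases g1 : Good R B {w | ρ w = ρ u}ᶜ
  · exact ⟨_, Or.inr (Or.inl (comp_conn R u)), g1⟩
  by_cases g2 : Good R B {w | γ w = γ v}ᶜ
  · exact ⟨_, Or.inr (Or.inr (comp_conn B v)), g2⟩
  obtain ⟨y, hy, y', hy', hyy⟩ := not_good (G := G) R B (fun x y e => (hG x y).1 e) g1
  obtain ⟨x, hx, x', hx', hxx⟩ := not_good (G := G) R B (fun x y e => (hG x y).1 e) g2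
  have d1 : Disjoint (univ.filter (fun w => γ w ≠ γ v)) (univ.filter (fun w => ρ w ≠ ρ u)) := by
    rw [Finset.disjoint_left]; intro w; have := h w; simp; tauto
  have d2 : Disjoint (univ.filter (fun w => γ w ≠ γ v))
      (univ.filter (fun w => ρ w = ρ u ∧ γ w = γ v)) := by
    rw [Finset.disjoint_left]; intro w; simp; tauto
  have d3 : Disjoint (univ.filter (fun w => ρ w ≠ ρ u))
      (univ.filter (fun w => ρ w = ρ u ∧ γ w = γ v)) := by
    rw [Finset.disjoint_left]; intro w; simp; tauto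
  obtain ⟨S, h1, h2⟩ := split (G := G) R B (fun x y e => (hG x y).1 e) hk d1 d2 d3
    (fun w => by simp; tauto)
    (by
      rw [← card_union_of_disjoint d1, ← card_union_of_disjoint (disjoint_union_left.2 ⟨d2, d3⟩)]
      have : univ.filter (fun w => γ w ≠ γ v) ∪ univ.filter (fun w => ρ w ≠ ρ u) ∪
          univ.filter (fun w => ρ w = ρ u ∧ γ w = γ v) = univ := by
        ext w; simp; tauto
      rw [this, card_univ]; exact hn)
    (fun a ha b hb e => by
      have := hadj _ _ e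
      have := h a
      have := h b
      simp only [mem_filter, mem_univ, true_and] at ha hb
      grind)
    (fun a ha b hb e => ((hG a b).1 e).resolve_right fun e' => by
      have : γ a = γ b := ConnectedComponent.sound e'.reachable
      simp only [mem_filter, mem_univ, true_and] at ha hb
      grind)
    (fun a ha b hb e => ((hG a b).1 e).resolve_left fun e' => by
      have : ρ a = ρ b := ConnectedComponent.sound e'.reachable
      simp only [mem_filter, mem_univ, true_and] at ha hb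
      grind)
    (u := x) (u' := x') (v := y) (v' := y') (by simpa using hx) (by simpa using hx') hxx
    (by simpa using hy) (by simpa using hy') hyy
  exact ⟨S, Or.inr (Or.inl h1), Or.inr (Or.inr h2)⟩

end Pool.Agent.H969Z.MonoPart
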