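import Mathlib

set_option autoImplicit false

namespace Pool.Agent.H969Z.Pyth

open MeasureTheory Finset

section Pointwise

/-- The potential function. -/
noncomputable def ph (t : ℝ) : ℝ := Real.sqrt |t|

lemma ph_nonneg (t : ℝ) : 0 ≤ ph t := Real.sqrt_nonneg _

lemma ph_sq (t : ℝ) : ph t ^ 2 = |t| := Real.sq_sqrt (abs_nonneg t)

lemma ph_four (t : ℝ) : ph t ^ 4 = t ^ 2 := by
  have : ph t ^ 4 = (ph t ^ 2) ^ 2 := by ring
  rw [this, ph_sq, sq_abs]

lemma ph_le {t y : ℝ} (hy : 0 ≤ y) (h : |t| ≤ y ^ 2) : ph t ≤ y := Real.sqrt_le_iff.2 ⟨hy, h⟩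

lemma ph_add_le (a b : ℝ) : ph (a + b) ≤ ph a + ph b := by
  refine ph_le (add_nonneg (ph_nonneg a) (ph_nonneg b)) ?_
  have h1 := abs_add_le a b
  have h2 := ph_sq a
  have h3 := ph_sq b
  nlinarith [mul_nonneg (ph_nonneg a) (ph_nonneg b)]

lemma ph_neg (a : ℝ) : ph (-a) = ph a := by simp [ph]

lemma ph_one : ph 1 = 1 := by simp [ph]

/-- Fourth root. -/
noncomputable def rt (s : ℝ) : ℝ := Real.sqrt (Real.sqrt s)

lemma rt_nonneg (s : ℝ) : 0 ≤ rt s := Real.sqrt_nonneg _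

lemma rt_four {s : ℝ} (hs : 0 ≤ s) : rt s ^ 4 = s := by
  have : rt s ^ 4 = (rt s ^ 2) ^ 2 := by ring
  rw [this, rt, Real.sq_sqrt (Real.sqrt_nonneg _), Real.sq_sqrt hs]

lemma add_four_le {b c : ℝ} (hb : 0 ≤ b) (hc : 0 ≤ c) : b ^ 4 + c ^ 4 ≤ (b + c) ^ 4 := by
  have : (b + c) ^ 4 = b ^ 4 + c ^ 4 + (4 * b ^ 3 * c + 6 * b ^ 2 * c ^ 2 + 4 * b * c ^ 3) := by ring
  rw [this]
  have : 0 ≤ 4 * b ^ 3 * c + 6 * b ^ 2 * c ^ 2 + 4 * b * c ^ 3 := by positivity
  linarith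

lemma two_terms {x y β s : ℝ} (hs : 0 ≤ s) (h : x ^ 2 + y ^ 2 ≤ β ^ 2 + s) :
    ph x + ph y ≤ 7 / 4 * (ph β + rt s) := by
  have hu := ph_nonneg x
  have hv := ph_nonneg y
  have hb := ph_nonneg β
  have hc := rt_nonneg s
  rw [← ph_four x, ← ph_four y, ← ph_four β, ← rt_four hs] at h
  set u := ph x
  set v := ph y
  set b := ph β
  set c := rt s
  have h1 := add_four_le hb hc
  have h2 : (u + v) ^ 4 ≤ 8 * (u ^ 4 + v ^ 4) := by
    have : 8 * (u ^ 4 + v ^ 4) - (u + v) ^ 4 = (u - v) ^ 2 * (7 * u ^ 2 + 10 * u * v + 7 * v ^ 2) := by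
      ring
    have h3 : 0 ≤ (u - v) ^ 2 * (7 * u ^ 2 + 10 * u * v + 7 * v ^ 2) := by positivity
    linarith
  have h4 : 0 ≤ (b + c) ^ 4 := by positivity
  refine le_of_pow_le_pow_left₀ (n := 4) (by norm_num) (by positivity) ?_
  have h5 : (7 / 4 * (b + c)) ^ 4 = 2401 / 256 * (b + c) ^ 4 := by ring
  rw [h5]
  linarith

lemma ph_le_of_sq {γ β s : ℝ} (hs : 0 ≤ s) (h : γ ^ 2 ≤ β ^ 2 + s) : ph γ ≤ ph β + rt s := by
  have hb := ph_nonneg β
  have hc := rt_nonneg s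
  rw [← ph_four γ, ← ph_four β, ← rt_four hs] at h
  exact le_of_pow_le_pow_left₀ (n := 4) (by norm_num) (by positivity)
    (h.trans (add_four_le hb hc))

lemma one_term {γ β s : ℝ} (hs : 0 ≤ s) (h : γ ^ 2 ≤ β ^ 2 + s) :
    ph (γ - β) + ph (γ + β) ≤ 15 / 4 * ph β + 23 / 4 * rt s - 2 * ph γ := by
  have hgm := ph_le_of_sq hs h
  have hg := ph_nonneg γ
  have hb := ph_nonneg β
  have hc := rt_nonneg s
  have e1 := ph_sq γ
  have e2 := ph_sq β
  set g := ph γ
  set b := ph β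
  set c := rt s
  have big : ∀ t : ℝ, |t| ≤ g ^ 2 + b ^ 2 → ph t ≤ 3 / 2 * (b + c) := by
    intro t ht
    refine ph_le (by positivity) (ht.trans ?_)
    nlinarith [mul_nonneg hb hc, mul_nonneg hg hg]
  have small : ∀ t : ℝ, |t| = |g ^ 2 - b ^ 2| → ph t ≤ (b + c) / 4 + 2 * (b + 2 * c - g) := by
    intro t ht
    have hw : 0 ≤ b + 2 * c - g := by linarith
    refine ph_le (by positivity) ?_
    have h1 : |g ^ 2 - b ^ 2| = |g - b| * (g + b) := by
      rw [show g ^ 2 - b ^ 2 = (g - b) * (g + b) by ring, abs_mul, abs_of_nonneg (add_nonneg hg hb)]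
    have h2 : |g - b| ≤ b + 2 * c - g := by
      rw [abs_le]; constructor <;> linarith
    have h3 : g + b ≤ 2 * (b + c) := by linarith
    have h4 : |g - b| * (g + b) ≤ (b + 2 * c - g) * (2 * (b + c)) :=
      mul_le_mul h2 h3 (add_nonneg hg hb) hw
    rw [ht, h1]
    nlinarith [sq_nonneg ((b + c) / 4 - 2 * (b + 2 * c - g))]
  have t1 : |γ - β| ≤ g ^ 2 + b ^ 2 := by rw [e1, e2]; exact abs_sub γ β
  have t2 : |γ + β| ≤ g ^ 2 + b ^ 2 := by rw [e1, e2]; exact abs_add_le γ β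
  have hcase : |γ - β| = |g ^ 2 - b ^ 2| ∨ |γ + β| = |g ^ 2 - b ^ 2| := by
    rw [e1, e2]
    rcases le_total 0 γ with h1 | h1 <;> rcases le_total 0 β with h2 | h2
    · left; rw [abs_of_nonneg h1, abs_of_nonneg h2]
    · right; rw [abs_of_nonneg h1, abs_of_nonpos h2]; congr 1; ring
    · right; rw [abs_of_nonpos h1, abs_of_nonneg h2, ← abs_neg]; congr 1; ring
    · left; rw [abs_of_nonpos h1, abs_of_nonpos h2, ← abs_neg]; congr 1; ring
  rcases hcase with h1 | h1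
  · have := small _ h1
    have := big _ t2
    linarith
  · have := small _ h1
    have := big _ t1
    linarith

end Pointwise

variable {K : Type} [Field K] [CharZero K] [IsGalois ℚ K]

/-- Borel structure on the Galois group. -/
noncomputable scoped instance galMeas : MeasurableSpace (K ≃ₐ[ℚ] K) := borel _

scoped instance galBorel : BorelSpace (K ≃ₐ[ℚ] K) := ⟨rfl⟩

variable (K) in
/-- Haar probability measure on the Galois group. -/
noncomputable def mu : Measure (K ≃ₐ[ℚ] K) := Measure.haarMeasure ⊤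

scoped instance mu_prob : IsProbabilityMeasure (mu K) :=
  ⟨by
    have := Measure.haarMeasure_self (K₀ := (⊤ : TopologicalSpace.PositiveCompacts (K ≃ₐ[ℚ] K)))
    simpa [mu] using this⟩

scoped instance mu_inv : (mu K).IsMulLeftInvariant := by
  unfold mu; infer_instance

lemma integrable_ev (f : K → ℝ) (x : K) :
    Integrable (fun g : K ≃ₐ[ℚ] K => f (g⁻¹ x)) (mu K) := by
  let _ : TopologicalSpace K := ⊥
  have : DiscreteTopology K := ⟨rfl⟩
  have : ContinuousSMul (K ≃ₐ[ℚ] K) K :=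
    continuousSMul_iff_stabilizer_isOpen.2 fun y => stabilizer_isOpen_of_isIntegral y
  have hc : Continuous fun g : K ≃ₐ[ℚ] K => f (g⁻¹ • x) :=
    continuous_of_discreteTopology.comp (continuous_inv.smul continuous_const)
  exact hc.integrable_of_hasCompactSupport (HasCompactSupport.of_compactSpace _)

/-- The mean of `f` over the conjugates of `x`. -/
noncomputable def mean (f : K → ℝ) (x : K) : ℝ := ∫ g : K ≃ₐ[ℚ] K, f (g⁻¹ x) ∂(mu K)

lemma mean_conj (f : K → ℝ) (x : K) (σ : K ≃ₐ[ℚ] K) : mean f (σ x) = mean f x := by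
  unfold mean
  rw [← integral_mul_left_eq_self (fun g : K ≃ₐ[ℚ] K => f (g⁻¹ (σ x))) σ]
  congr 1
  funext g
  simp

lemma mean_nonneg {f : K → ℝ} (hf : ∀ y, 0 ≤ f y) (x : K) : 0 ≤ mean f x :=
  integral_nonneg fun _ => hf _

omit [IsGalois ℚ K] in
lemma isIntegral_conj {x : K} (hx : IsIntegral ℤ x) (σ : K ≃ₐ[ℚ] K) : IsIntegral ℤ (σ x) :=
  map_isIntegral_int σ hx

omit [IsGalois ℚ K] in
lemma int_of_rat {q : ℚ} (h : IsIntegral ℤ (algebraMap ℚ K q)) : ∃ z : ℤ, (z : ℚ) = q := by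
  rw [isIntegral_algebraMap_iff (algebraMap ℚ K).injective] at h
  obtain ⟨z, hz⟩ := IsIntegrallyClosed.isIntegral_iff.1 h
  exact ⟨z, by simpa using hz⟩

lemma mean_log_nonneg (ι : K →+* ℝ) {x : K} (hx : IsIntegral ℤ x) (h0 : x ≠ 0) :
    0 ≤ mean (fun y => Real.log |ι y|) x := by
  classical
  have hfin : (MulAction.orbit (K ≃ₐ[ℚ] K) x).Finite := by
    have hxq : IsIntegral ℚ x := Algebra.IsIntegral.isIntegral x
    refine Set.Finite.subset (Polynomial.rootSet_finite (minpoly ℚ x) K) ?_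
    rintro _ ⟨σ, rfl⟩
    rw [Polynomial.mem_rootSet]
    refine ⟨minpoly.ne_zero hxq, ?_⟩
    have : (σ • x : K) = σ x := rfl
    simp only [this]
    rw [Polynomial.aeval_algHom_apply σ, minpoly.aeval, map_zero]
  set O := hfin.toFinset with hO
  have hmem : ∀ y, y ∈ O ↔ ∃ σ : K ≃ₐ[ℚ] K, σ x = y := by
    intro y; rw [hO, Set.Finite.mem_toFinset]; rfl
  have hperm : ∀ (g : K ≃ₐ[ℚ] K), ∏ y ∈ O, g y = ∏ y ∈ O, y := by
    intro g
    refine Finset.prod_bij (fun y _ => g y) ?_ ?_ ?_ ?_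
    · intro y hy
      obtain ⟨σ, rfl⟩ := (hmem y).1 hy
      exact (hmem _).2 ⟨g * σ, rfl⟩
    · intro a _ b _ h
      exact g.injective h
    · intro y hy
      obtain ⟨σ, rfl⟩ := (hmem y).1 hy
      exact ⟨(g⁻¹ * σ) x, (hmem _).2 ⟨g⁻¹ * σ, rfl⟩, by simp⟩
    · intro y _; rfl
  have hne : ∀ y ∈ O, y ≠ 0 := by
    intro y hy
    obtain ⟨σ, rfl⟩ := (hmem y).1 hy
    simpa using h0
  set N := ∏ y ∈ O, y with hN
  have hNbot : N ∈ (⊥ : IntermediateField ℚ K) := by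
    rw [InfiniteGalois.mem_bot_iff_fixed]
    intro g
    rw [hN, map_prod, hperm]
  obtain ⟨q, hq⟩ := IntermediateField.mem_bot.1 hNbot
  have hNint : IsIntegral ℤ N := by
    refine IsIntegral.prod _ fun y hy => ?_
    obtain ⟨σ, rfl⟩ := (hmem y).1 hy
    exact isIntegral_conj hx σ
  obtain ⟨z, hz⟩ := int_of_rat (K := K) (q := q) (hq ▸ hNint)
  have hN0 : N ≠ 0 := Finset.prod_ne_zero_iff.2 hne
  have hNz : N = (z : K) := by rw [← hq, ← hz]; simp
  have hz0 : z ≠ 0 := by rintro rfl; exact hN0 (by simpa using hNz)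
  have hpt : ∀ g : K ≃ₐ[ℚ] K, 0 ≤ ∑ y ∈ O, Real.log |ι (g⁻¹ y)| := by
    intro g
    rw [← Real.log_prod (fun y hy => by simpa using hne y hy), ← Finset.abs_prod, ← map_prod,
      hperm, hNz]
    refine Real.log_nonneg ?_
    rw [map_intCast, ← Int.cast_abs]
    exact_mod_cast Int.one_le_abs hz0
  have hsum : ∑ y ∈ O, mean (fun y => Real.log |ι y|) y
      = O.card * mean (fun y => Real.log |ι y|) x := by
    rw [Finset.sum_congr rfl (g := fun _ => mean (fun y => Real.log |ι y|) x)]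
    · simp
    · intro y hy
      obtain ⟨σ, rfl⟩ := (hmem y).1 hy
      exact mean_conj _ _ _
  have hint : 0 ≤ ∑ y ∈ O, mean (fun y => Real.log |ι y|) y := by
    unfold mean
    rw [← integral_finsetSum _ fun y _ => integrable_ev (fun y => Real.log |ι y|) y]
    exact integral_nonneg hpt
  rw [hsum] at hint
  have hpos : (0 : ℝ) < O.card := by
    exact_mod_cast Finset.card_pos.2 ⟨x, (hmem x).2 ⟨1, rfl⟩⟩
  exact nonneg_of_mul_nonneg_right hint hpos |> fun h => h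

/-- The potential of an element: the mean of the square roots of the absolute values of its conjugates. -/
noncomputable def Psi (ι : K →+* ℝ) (x : K) : ℝ := mean (fun y => ph (ι y)) x

lemma Psi_nonneg (ι : K →+* ℝ) (x : K) : 0 ≤ Psi ι x := mean_nonneg (fun _ => ph_nonneg _) x

lemma Psi_sub_le (ι : K →+* ℝ) (x y : K) : Psi ι (x - y) ≤ Psi ι x + Psi ι y := by
  unfold Psi mean
  rw [← integral_add (integrable_ev (fun y => ph (ι y)) x) (integrable_ev (fun y => ph (ι y)) y)]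
  refine integral_mono (integrable_ev (fun y => ph (ι y)) _)
    ((integrable_ev (fun y => ph (ι y)) x).add (integrable_ev (fun y => ph (ι y)) y)) fun g => ?_
  simp only [map_sub]
  rw [sub_eq_add_neg]
  exact (ph_add_le _ _).trans (by rw [ph_neg])

lemma Psi_add_one_le (ι : K →+* ℝ) (x : K) : Psi ι (x + 1) ≤ Psi ι x + 1 := by
  have h := Psi_sub_le ι x (-1)
  have h1 : Psi ι (-1) = 1 := by
    unfold Psi mean
    simp [ph_neg, ph_one]
  rwa [sub_neg_eq_add, h1] at h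

/-- A nonzero element whose square is `p` times an algebraic integer has a large potential. -/
lemma Psi_ge (ι : K →+* ℝ) {η : K} (h0 : η ≠ 0) {p : ℕ} (hp : 0 < p)
    (h : IsIntegral ℤ (η ^ 2 / p)) : rt p ≤ Psi ι η := by
  have hpK : (p : K) ≠ 0 := by exact_mod_cast hp.ne'
  have hpR : (0 : ℝ) < p := by exact_mod_cast hp
  have hz : η ^ 2 / p ≠ 0 := div_ne_zero (pow_ne_zero 2 h0) hpK
  have hlog := mean_log_nonneg ι h hz
  have hq : 0 < rt p := Real.sqrt_pos.2 (Real.sqrt_pos.2 hpR)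
  have hq4 := rt_four hpR.le
  have key : rt p + rt p / 4 * mean (fun y => Real.log |ι y|) (η ^ 2 / p) ≤ Psi ι η := by
    unfold Psi mean
    have hi := integrable_ev (fun y => Real.log |ι y|) (η ^ 2 / p)
    have e : rt p + rt p / 4 * ∫ g : K ≃ₐ[ℚ] K, Real.log |ι (g⁻¹ (η ^ 2 / p))| ∂(mu K)
        = ∫ g : K ≃ₐ[ℚ] K, (rt p + rt p / 4 * Real.log |ι (g⁻¹ (η ^ 2 / p))|) ∂(mu K) := by
      rw [integral_add (integrable_const _) (hi.const_mul _), integral_const_mul]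
      simp
    rw [e]
    refine integral_mono ((integrable_const _).add (hi.const_mul _))
      (integrable_ev (fun y => ph (ι y)) η) fun g => ?_
    simp only [map_div₀, map_pow, map_natCast]
    set t := ι (g⁻¹ η) with ht
    have ht0 : t ≠ 0 := by simpa [ht] using h0
    have hph : 0 < ph t := Real.sqrt_pos.2 (abs_pos.2 ht0)
    have h1 : |t ^ 2 / p| = (ph t / rt p) ^ 4 := by
      rw [div_pow, ph_four, hq4, abs_of_nonneg (by positivity)]
    rw [h1, Real.log_pow]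
    have h2 := Real.log_le_sub_one_of_pos (div_pos hph hq)
    have h3 : rt p * (ph t / rt p) = ph t := by field_simp
    push_cast
    nlinarith
  have : 0 ≤ rt p / 4 * mean (fun y => Real.log |ι y|) (η ^ 2 / p) := by positivity
  linarith

/-- The inductive step. -/
lemma step (ι : K →+* ℝ) {n m : ℕ} (a : Fin m → K)
    (hna : ¬ ∃ b : Fin n → K, (∀ i, IsIntegral ℤ (b i)) ∧ ∑ i, a i ^ 2 = ∑ i, b i ^ 2)
    (F : IntermediateField ℚ K) (haF : ∀ i, a i ∈ F) (hex : ∃ x, IsIntegral ℤ x ∧ x ∉ F)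
    (hbig : ∀ x, IsIntegral ℤ x → x ∉ F →
      31 + 23 * mean (fun y => rt (ι y)) (∑ i, a i ^ 2) ≤ Psi ι x) :
    ∃ β : K, IsIntegral ℤ β ∧
      ¬ ∃ b : Fin (n + 1) → K, (∀ i, IsIntegral ℤ (b i)) ∧ β ^ 2 + ∑ i, a i ^ 2 = ∑ i, b i ^ 2 := by
  classical
  set s : K := ∑ i, a i ^ 2 with hs
  set C := mean (fun y => rt (ι y)) s with hC
  have hsF : s ∈ F := F.sum_mem fun i _ => pow_mem (haF i) 2
  have hspos : ∀ g : K ≃ₐ[ℚ] K, 0 ≤ ι (g s) := by
    intro g
    simp only [hs, map_sum, map_pow]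
    exact Finset.sum_nonneg fun i _ => sq_nonneg _
  set V : Set ℝ := {r | ∃ x, IsIntegral ℤ x ∧ x ∉ F ∧ Psi ι x = r} with hV
  have hVne : V.Nonempty := by
    obtain ⟨x, h1, h2⟩ := hex
    exact ⟨_, x, h1, h2, rfl⟩
  have hVb : BddBelow V := ⟨0, by rintro _ ⟨x, -, -, rfl⟩; exact Psi_nonneg ι x⟩
  set μ := sInf V with hμ
  have hμle : ∀ x, IsIntegral ℤ x → x ∉ F → μ ≤ Psi ι x := fun x h1 h2 =>
    csInf_le hVb ⟨x, h1, h2, rfl⟩
  have hμge : 31 + 23 * C ≤ μ := le_csInf hVne (by rintro _ ⟨x, h1, h2, rfl⟩; exact hbig x h1 h2)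
  have hC0 : 0 ≤ C := mean_nonneg (fun _ => rt_nonneg _) s
  obtain ⟨_, ⟨β₀, hβ₀, hβ₀F, rfl⟩, hlt⟩ := exists_lt_of_csInf_lt hVne (lt_add_one μ)
  obtain ⟨β, hβ, hβF, hβ2, hβle⟩ : ∃ β : K, IsIntegral ℤ β ∧ β ∉ F ∧ β ^ 2 ∉ F ∧ Psi ι β ≤ μ + 2 := by
    by_cases h : β₀ ^ 2 ∈ F
    · refine ⟨β₀ + 1, hβ₀.add isIntegral_one, fun h1 => hβ₀F ?_, fun h1 => hβ₀F ?_, ?_⟩
      · simpa using F.sub_mem h1 F.one_mem
      · have h2 : β₀ = ((β₀ + 1) ^ 2 - β₀ ^ 2 - 1) / 2 := by ring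
        rw [h2]
        exact F.div_mem (F.sub_mem (F.sub_mem h1 h) F.one_mem) (by exact_mod_cast F.natCast_mem 2)
      · have := Psi_add_one_le ι β₀
        linarith
    · exact ⟨β₀, hβ₀, hβ₀F, h, by linarith⟩
  refine ⟨β, hβ, ?_⟩
  rintro ⟨b, hb, hsum⟩
  have iP := fun x => integrable_ev (fun y => ph (ι y)) x
  have iC := integrable_ev (fun y => rt (ι y)) s
  have hpt : ∀ g : K ≃ₐ[ℚ] K, ∑ i, ι (g (b i)) ^ 2 = ι (g β) ^ 2 + ι (g s) := by
    intro g
    have := congrArg (fun z => ι (g z)) hsum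
    simp only [map_add, map_pow, map_sum] at this
    exact this.symm
  obtain ⟨i, hi⟩ : ∃ i, b i ∉ F := by
    by_contra hcon
    push Not at hcon
    apply hβ2
    have : β ^ 2 = ∑ i, b i ^ 2 - s := by rw [← hsum]; ring
    rw [this]
    exact F.sub_mem (F.sum_mem fun i _ => pow_mem (hcon i) 2) hsF
  have hsplit : ∑ j, b j ^ 2 = b i ^ 2 + ∑ j : Fin n, b (i.succAbove j) ^ 2 :=
    Fin.sum_univ_succAbove (fun j => b j ^ 2) i
  by_cases hall : ∀ j : Fin n, b (i.succAbove j) ∈ F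
  · set γ := b i with hγ
    set δ := s - ∑ j : Fin n, b (i.succAbove j) ^ 2 with hδ
    have hδF : δ ∈ F := F.sub_mem hsF (F.sum_mem fun j _ => pow_mem (hall j) 2)
    have hxy : (γ - β) * (γ + β) = δ := by
      rw [hδ]; rw [hsplit] at hsum; linear_combination -hsum
    have hδ0 : δ ≠ 0 := by
      intro h
      exact hna ⟨fun j => b (i.succAbove j), fun j => hb _, by rw [hδ] at h; exact sub_eq_zero.1 h⟩
    have hx0 : γ - β ≠ 0 := fun h => hδ0 (by rw [← hxy, h, zero_mul])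
    have hy0 : γ + β ≠ 0 := fun h => hδ0 (by rw [← hxy, h, mul_zero])
    have hboth : ¬ (γ - β ∈ F ∧ γ + β ∈ F) := by
      rintro ⟨h1, h2⟩
      apply hβF
      have h3 : β = ((γ + β) - (γ - β)) / 2 := by ring
      rw [h3]
      exact F.div_mem (F.sub_mem h2 h1) (by exact_mod_cast F.natCast_mem 2)
    have hxF : γ - β ∉ F := by
      intro h
      refine hboth ⟨h, ?_⟩
      have : γ + β = δ / (γ - β) := by rw [← hxy]; field_simp
      rw [this]; exact F.div_mem hδF h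
    have hyF : γ + β ∉ F := by
      intro h
      refine hboth ⟨?_, h⟩
      have : γ - β = δ / (γ + β) := by rw [← hxy]; field_simp
      rw [this]; exact F.div_mem hδF h
    have h1 := hμle _ ((hb i).sub hβ) hxF
    have h2 := hμle _ ((hb i).add hβ) hyF
    have h3 := hμle _ (hb i) hi
    have h4 : Psi ι (γ - β) + Psi ι (γ + β) + 2 * Psi ι γ ≤ 15 / 4 * Psi ι β + 23 / 4 * C := by
      rw [hC]
      unfold Psi mean
      have i1 : Integrable (fun g : K ≃ₐ[ℚ] K => ph (ι (g⁻¹ (γ - β))) + ph (ι (g⁻¹ (γ + β)))) (mu K) :=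
        (iP _).add (iP _)
      rw [← integral_add (iP _) (iP _), ← integral_const_mul, ← integral_const_mul,
        ← integral_const_mul, ← integral_add ((iP _).const_mul _) (iC.const_mul _),
        ← integral_add i1 ((iP _).const_mul _)]
      refine integral_mono (i1.add ((iP _).const_mul _))
        (((iP _).const_mul _).add (iC.const_mul _)) fun g => ?_
      refine le_sub_iff_add_le.1 ?_
      simp only [map_sub, map_add]
      refine one_term (hspos _) ?_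
      rw [← hpt]
      exact Finset.single_le_sum (f := fun j => ι (g⁻¹ (b j)) ^ 2) (fun j _ => sq_nonneg _)
        (Finset.mem_univ i)
    linarith
  · push Not at hall
    obtain ⟨j, hj⟩ := hall
    have h1 := hμle _ (hb i) hi
    have h2 := hμle _ (hb _) hj
    have h4 : Psi ι (b i) + Psi ι (b (i.succAbove j)) ≤ 7 / 4 * (Psi ι β + C) := by
      rw [hC]
      unfold Psi mean
      rw [← integral_add (iP _) (iP _), ← integral_add (iP _) iC, ← integral_const_mul]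
      refine integral_mono ((iP _).add (iP _)) (((iP _).add iC).const_mul _) fun g => ?_
      refine two_terms (hspos _) ?_
      rw [← hpt, Fin.sum_univ_succAbove _ i]
      have := Finset.single_le_sum (f := fun j : Fin n => ι (g⁻¹ (b (i.succAbove j))) ^ 2)
        (fun j _ => sq_nonneg _) (Finset.mem_univ j)
      linarith
    linarith

/-- The general criterion for an infinite Pythagoras number. -/
theorem general (ι : K →+* ℝ)
    (H : ∀ (C : ℝ) (m : ℕ) (a : Fin m → K), ∃ F : IntermediateField ℚ K, (∀ i, a i ∈ F) ∧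
      (∃ x, IsIntegral ℤ x ∧ x ∉ F) ∧ ∀ x, IsIntegral ℤ x → x ∉ F → C ≤ Psi ι x) (n : ℕ) :
    ∃ m : ℕ, ∃ a : Fin m → K, (∀ i, IsIntegral ℤ (a i)) ∧
      ¬ ∃ b : Fin n → K, (∀ i, IsIntegral ℤ (b i)) ∧ ∑ i, a i ^ 2 = ∑ i, b i ^ 2 := by
  induction n with
  | zero => exact ⟨1, fun _ => 1, fun _ => isIntegral_one, by simp⟩
  | succ n ih =>
    obtain ⟨m, a, ha, hna⟩ := ih
    obtain ⟨F, h1, h2, h3⟩ := H (31 + 23 * mean (fun y => rt (ι y)) (∑ i, a i ^ 2)) m a
    obtain ⟨β, hβ, hn⟩ := step ι a hna F h1 h2 h3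
    refine ⟨m + 1, Fin.cons β a, fun i => Fin.cases hβ ha i, ?_⟩
    rw [Fin.sum_univ_succ]
    simpa using hn

end Pool.Agent.H969Z.Pyth
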