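import Pool.Agent.H969Z.PyMean

set_option autoImplicit false

namespace Pool.Agent.H969Z.Pyth

open Finset IntermediateField

variable {K : Type} [Field K] [CharZero K] [IsGalois ℚ K]

lemma decomp (E : IntermediateField ℚ K) {t : K} (ht : t ^ 2 ∈ E) (A : Set K)
    (hA : ∀ a ∈ A, ∃ u ∈ E, ∃ v ∈ E, a = u + v * t) {w : K} (hw : w ∈ adjoin ℚ A) :
    ∃ u ∈ E, ∃ v ∈ E, w = u + v * t := by
  have hw' : w ∈ Algebra.adjoin ℚ A := by
    rw [← adjoin_toSubalgebra_of_isAlgebraic fun x _ => Algebra.IsAlgebraic.isAlgebraic x]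
    exact hw
  clear hw
  induction hw' using Algebra.adjoin_induction with
  | mem x hx => exact hA x hx
  | algebraMap r => exact ⟨_, E.algebraMap_mem r, 0, E.zero_mem, by simp⟩
  | add x y _ _ hx hy =>
    obtain ⟨u, hu, v, hv, rfl⟩ := hx
    obtain ⟨u', hu', v', hv', rfl⟩ := hy
    exact ⟨u + u', E.add_mem hu hu', v + v', E.add_mem hv hv', by ring⟩
  | mul x y _ _ hx hy =>
    obtain ⟨u, hu, v, hv, rfl⟩ := hx
    obtain ⟨u', hu', v', hv', rfl⟩ := hy
    exact ⟨u * u' + v * v' * t ^ 2, E.add_mem (E.mul_mem hu hu') (E.mul_mem (E.mul_mem hv hv') ht),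
      u * v' + v * u', E.add_mem (E.mul_mem hu hv') (E.mul_mem hv hu'), by ring⟩

lemma exists_conj (E : IntermediateField ℚ K) {t : K} (ht : t ^ 2 ∈ E) (htE : t ∉ E) :
    ∃ τ : K ≃ₐ[ℚ] K, (∀ u ∈ E, τ u = u) ∧ τ t = -t := by
  have h := InfiniteGalois.fixedField_fixingSubgroup E
  have h1 : ¬ ∀ f ∈ E.fixingSubgroup, f t = t := by
    intro h2
    apply htE
    rw [← h, IntermediateField.mem_fixedField_iff]
    exact h2
  push Not at h1
  obtain ⟨τ, hτ, hne⟩ := h1
  have hfix : ∀ u ∈ E, τ u = u := (IntermediateField.mem_fixingSubgroup_iff E τ).1 hτ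
  refine ⟨τ, hfix, ?_⟩
  have h3 : τ t ^ 2 = t ^ 2 := by rw [← map_pow, hfix _ ht]
  rcases sq_eq_sq_iff_eq_or_eq_neg.1 h3 with h4 | h4
  · exact absurd h4 hne
  · exact h4

omit [IsGalois ℚ K] [CharZero K] in
lemma int_congr {a b : K} (h : IsIntegral ℤ a) (e : b = a) : IsIntegral ℤ b := e ▸ h

omit [IsGalois ℚ K] [CharZero K] in
lemma isIntegral_nat (n : ℕ) : IsIntegral ℤ (n : K) := by
  simpa using isIntegral_algebraMap (R := ℤ) (A := K) (x := (n : ℤ))

omit [IsGalois ℚ K] [CharZero K] in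
lemma isIntegral_int (n : ℤ) : IsIntegral ℤ (n : K) := by
  simpa using isIntegral_algebraMap (R := ℤ) (A := K) (x := n)

omit [IsGalois ℚ K] [CharZero K] in
lemma int_of_coprime {x : K} {a b : ℕ} (h : Nat.Coprime a b) (ha : IsIntegral ℤ (a * x))
    (hb : IsIntegral ℤ (b * x)) : IsIntegral ℤ x := by
  obtain ⟨u, v, huv⟩ := Nat.isCoprime_iff_coprime.2 h
  have h1 : (u : K) * a + v * b = 1 := by exact_mod_cast congrArg (Int.cast : ℤ → K) huv
  have h2 : x = u * (a * x) + v * (b * x) := by linear_combination (-x) * h1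
  rw [h2]
  exact ((isIntegral_int u).mul ha).add ((isIntegral_int v).mul hb)

/-- Square roots of the naturals prime to `p`. -/
def Tp (K : Type) [Field K] (p : ℕ) : Set K := {t | ∃ e : ℕ, ¬ p ∣ e ∧ t ^ 2 = e}

lemma red_finset {p : ℕ} (hp : p.Prime) (hp2 : p ≠ 2) (A : Finset K) (hA : (A : Set K) ⊆ Tp K p) :
    ∀ w ∈ adjoin ℚ (A : Set K), IsIntegral ℤ (w ^ 2 / p) → IsIntegral ℤ (w / p) := by
  classical
  have hpK : (p : K) ≠ 0 := by exact_mod_cast hp.ne_zero
  induction A using Finset.induction_on with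
  | empty =>
    intro w hw hint
    rw [Finset.coe_empty, adjoin_empty] at hw
    obtain ⟨q, rfl⟩ := IntermediateField.mem_bot.1 hw
    have h1 : IsIntegral ℤ (algebraMap ℚ K q) := by
      refine IsIntegral.of_pow (n := 2) two_pos ?_
      have : algebraMap ℚ K q ^ 2 = p * (algebraMap ℚ K q ^ 2 / p) := by field_simp
      rw [this]
      exact (isIntegral_nat p).mul hint
    obtain ⟨y, rfl⟩ := int_of_rat h1
    have h2 : IsIntegral ℤ (algebraMap ℚ K ((y : ℚ) ^ 2 / p)) := by simpa using hint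
    obtain ⟨z, hz⟩ := int_of_rat h2
    have hpQ : (p : ℚ) ≠ 0 := by exact_mod_cast hp.ne_zero
    have h3 : y ^ 2 = p * z := by
      have : (y : ℚ) ^ 2 = p * z := by rw [hz]; field_simp
      exact_mod_cast this
    have h4 : (p : ℤ) ∣ y := (Nat.prime_iff_prime_int.1 hp).dvd_of_dvd_pow ⟨z, h3⟩
    obtain ⟨k, rfl⟩ := h4
    have h5 : algebraMap ℚ K ((p * k : ℤ) : ℚ) / p = (k : K) := by
      simp only [Int.cast_mul, Int.cast_natCast, map_mul, map_natCast, map_intCast]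
      field_simp
    rw [h5]
    exact isIntegral_int k
  | insert t A' _ ih =>
    rw [Finset.coe_insert, Set.insert_subset_iff] at hA
    obtain ⟨⟨e, hpe, hte⟩, hA'⟩ := hA
    have ih' := ih hA'
    set E := adjoin ℚ (A' : Set K) with hE
    intro w hw hint
    have ht2 : t ^ 2 ∈ E := by rw [hte]; exact E.natCast_mem e
    obtain ⟨u, hu, v, hv, rfl⟩ := decomp E ht2 ((insert t A' : Finset K) : Set K) (by
      intro a ha
      rw [Finset.coe_insert] at ha
      rcases ha with rfl | ha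
      · exact ⟨0, E.zero_mem, 1, E.one_mem, by simp⟩
      · exact ⟨a, subset_adjoin ℚ _ ha, 0, E.zero_mem, by simp⟩) hw
    by_cases htE : t ∈ E
    · exact ih' _ (E.add_mem hu (E.mul_mem hv htE)) hint
    obtain ⟨τ, hfix, hτ⟩ := exists_conj E ht2 htE
    have hint' : IsIntegral ℤ ((u - v * t) ^ 2 / p) := by
      have := isIntegral_conj hint τ
      simp only [map_div₀, map_pow, map_add, map_mul, map_natCast, hfix u hu, hfix v hv, hτ] at this
      convert this using 2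
      ring
    have hN : IsIntegral ℤ ((u + v * t) * (u - v * t) / p) := by
      refine IsIntegral.of_pow (n := 2) two_pos ?_
      refine int_congr (hint.mul hint') ?_
      field_simp
    have htint : IsIntegral ℤ t := IsIntegral.of_pow (n := 2) two_pos (hte ▸ isIntegral_nat e)
    have two_mem : (2 : K) ∈ E := by exact_mod_cast E.natCast_mem 2
    have h2u : IsIntegral ℤ (2 * u / p) := by
      refine ih' _ (E.mul_mem two_mem hu) ?_
      refine int_congr ((hint.add hint').add ((isIntegral_nat 2).mul hN)) ?_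
      push_cast
      field_simp
      ring
    have h2v : IsIntegral ℤ (2 * v * e / p) := by
      refine ih' _ (E.mul_mem (E.mul_mem two_mem hv) (E.natCast_mem e)) ?_
      refine int_congr ((isIntegral_nat e).mul ((hint.add hint').sub ((isIntegral_nat 2).mul hN))) ?_
      push_cast
      field_simp
      rw [← hte]
      ring
    have hcop : Nat.Coprime (2 * e) p := by
      refine Nat.Coprime.mul_left ?_ ((Nat.Prime.coprime_iff_not_dvd hp).2 hpe).symm
      exact (Nat.coprime_primes Nat.prime_two hp).2 hp2.symm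
    refine int_of_coprime hcop ?_ ?_
    · refine int_congr (((isIntegral_nat e).mul h2u).add (htint.mul h2v)) ?_
      push_cast
      field_simp
    · refine IsIntegral.of_pow (n := 2) two_pos ?_
      refine int_congr ((isIntegral_nat p).mul hint) ?_
      field_simp

lemma red {p : ℕ} (hp : p.Prime) (hp2 : p ≠ 2) {w : K} (hw : w ∈ adjoin ℚ (Tp K p))
    (hint : IsIntegral ℤ (w ^ 2 / p)) : IsIntegral ℤ (w / p) := by
  obtain ⟨A, hA, hw'⟩ := exists_finset_of_mem_adjoin hw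
  exact red_finset hp hp2 A hA w hw' hint

omit [IsGalois ℚ K] in
lemma gen_sqfree {t : K} {e : ℕ} (ht : t ^ 2 = e) :
    t = 0 ∨ ∃ (a b : ℕ) (t' : K), 0 < a ∧ a ≤ e ∧ Squarefree a ∧ t' ^ 2 = a ∧ t = b * t' := by
  rcases Nat.eq_zero_or_pos e with rfl | he
  · left; simpa using ht
  · right
    obtain ⟨a, b, ha, hb, hab, hsq⟩ := Nat.sq_mul_squarefree_of_pos he
    have hbK : (b : K) ≠ 0 := by exact_mod_cast hb.ne'
    refine ⟨a, b, t / b, ha, ?_, hsq, ?_, by field_simp⟩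
    · rw [← hab]; exact Nat.le_mul_of_pos_left _ (by positivity)
    · rw [div_pow, ht, ← hab]; push_cast; field_simp

lemma not_dvd_of_sqfree {a p a' : ℕ} (hp : p.Prime) (hsq : Squarefree a) (h : a = p * a') :
    ¬ p ∣ a' := by
  rintro ⟨k, rfl⟩
  have : p * p ∣ a := ⟨k, by rw [h]; ring⟩
  exact hp.one_lt.ne' (Nat.isUnit_iff.1 (hsq p this))

lemma at_prime (ι : K →+* ℝ) (T : Set K) (hT : ∀ t ∈ T, ∃ e : ℕ, t ^ 2 = e) (htop : adjoin ℚ T = ⊤)
    {p : ℕ} (hp : p.Prime) (hp2 : p ≠ 2) {t₀ : K} {d : ℕ} (hd : ¬ p ∣ d) (ht₀ : t₀ ^ 2 = p * d) :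
    (IsIntegral ℤ t₀ ∧ t₀ ∉ adjoin ℚ (Tp K p)) ∧
      ∀ x, IsIntegral ℤ x → x ∉ adjoin ℚ (Tp K p) → rt p / 2 ≤ Psi ι x := by
  have hpK : (p : K) ≠ 0 := by exact_mod_cast hp.ne_zero
  have hd0 : d ≠ 0 := by rintro rfl; exact hd (dvd_zero p)
  have hdK : (d : K) ≠ 0 := by exact_mod_cast hd0
  set F := adjoin ℚ (Tp K p) with hF
  have ht₀int : IsIntegral ℤ t₀ := by
    refine IsIntegral.of_pow (n := 2) two_pos ?_
    rw [ht₀]; exact (isIntegral_nat p).mul (isIntegral_nat d)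
  have ht₀F : t₀ ∉ F := by
    intro h
    have h1 : IsIntegral ℤ (t₀ ^ 2 / p) := by
      rw [ht₀, mul_div_cancel_left₀ _ hpK]; exact isIntegral_nat d
    have h2 := (red hp hp2 h h1).pow 2
    have h3 : (t₀ / p) ^ 2 = algebraMap ℚ K ((d : ℚ) / p) := by
      rw [div_pow, ht₀]; simp only [map_div₀, map_natCast]; field_simp
    rw [h3] at h2
    obtain ⟨z, hz⟩ := int_of_rat h2
    have hpQ : (p : ℚ) ≠ 0 := by exact_mod_cast hp.ne_zero
    have h4 : (d : ℤ) = p * z := by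
      have : (d : ℚ) = p * z := by rw [hz]; field_simp
      exact_mod_cast this
    exact hd (Int.natCast_dvd_natCast.1 ⟨z, h4⟩)
  have ht₀0 : t₀ ≠ 0 := fun h => ht₀F (h ▸ F.zero_mem)
  have ht2 : t₀ ^ 2 ∈ F := by rw [ht₀]; exact F.mul_mem (F.natCast_mem p) (F.natCast_mem d)
  refine ⟨⟨ht₀int, ht₀F⟩, fun x hx hxF => ?_⟩
  obtain ⟨σ, hfix, hσ⟩ := exists_conj F ht2 ht₀F
  obtain ⟨u, hu, v, hv, rfl⟩ := decomp F ht2 T (w := x) (by
    intro t ht
    obtain ⟨e, he⟩ := hT t ht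
    rcases gen_sqfree he with rfl | ⟨a, b, t', -, -, hsq, ht', rfl⟩
    · exact ⟨0, F.zero_mem, 0, F.zero_mem, by simp⟩
    · by_cases hpa : p ∣ a
      · obtain ⟨a', ha'⟩ := hpa
        have hz : t' * t₀ / p ∈ F := by
          refine subset_adjoin ℚ _ ⟨a' * d, ?_, ?_⟩
          · intro h
            rcases (Nat.Prime.dvd_mul hp).1 h with h | h
            · exact not_dvd_of_sqfree hp hsq ha' h
            · exact hd h
          · rw [div_pow, mul_pow, ht', ht₀, ha']; push_cast; field_simp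
        refine ⟨0, F.zero_mem, b * (t' * t₀ / p) / d,
          F.div_mem (F.mul_mem (F.natCast_mem b) hz) (F.natCast_mem d), ?_⟩
        field_simp
        rw [ht₀]
        ring
      · exact ⟨b * t', F.mul_mem (F.natCast_mem b) (subset_adjoin ℚ _ ⟨a, hpa, ht'⟩), 0, F.zero_mem,
          by simp⟩) (by rw [htop]; trivial)
  have hv0 : v ≠ 0 := by
    rintro rfl
    exact hxF (by simpa using hu)
  have hσx : σ (u + v * t₀) = u - v * t₀ := by
    rw [map_add, map_mul, hfix u hu, hfix v hv, hσ]; ring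
  have hη : u + v * t₀ - σ (u + v * t₀) = 2 * v * t₀ := by rw [hσx]; ring
  have hηint : IsIntegral ℤ (2 * v * t₀) := hη ▸ hx.sub (isIntegral_conj hx σ)
  have two_mem : (2 : K) ∈ F := by exact_mod_cast F.natCast_mem 2
  have h1 : IsIntegral ℤ (2 * v * t₀ ^ 2 / p) := by
    refine red hp hp2 (F.mul_mem (F.mul_mem two_mem hv) ht2) ?_
    refine int_congr ((hηint.pow 2).mul (isIntegral_nat d)) ?_
    field_simp
    rw [ht₀]
  have h2 : IsIntegral ℤ ((2 * v * t₀) ^ 2 / p) := by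
    refine int_of_coprime ((Nat.Prime.coprime_iff_not_dvd hp).2 hd) ?_ ?_
    · refine int_congr (hηint.pow 2) ?_
      field_simp
    · refine int_congr (h1.pow 2) ?_
      field_simp
      rw [ht₀]
      ring
  have h3 := Psi_ge ι (mul_ne_zero (mul_ne_zero two_ne_zero hv0) ht₀0) hp.pos h2
  rw [← hη] at h3
  have h4 := Psi_sub_le ι (u + v * t₀) (σ (u + v * t₀))
  have h5 : Psi ι (σ (u + v * t₀)) = Psi ι (u + v * t₀) := mean_conj _ _ _
  linarith

lemma many_primes (T : Set K) (hT : ∀ t ∈ T, ∃ e : ℕ, t ^ 2 = e) (htop : adjoin ℚ T = ⊤)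
    (hinf : ¬ FiniteDimensional ℚ K) (N : ℕ) :
    ∃ p : ℕ, p.Prime ∧ N < p ∧ ∃ (t₀ : K) (d : ℕ), ¬ p ∣ d ∧ t₀ ^ 2 = p * d := by
  classical
  by_contra hcon
  push Not at hcon
  set Z : Set K := ⋃ a ∈ Finset.range (N.factorial + 1), {z : K | z ^ 2 = (a : K)} with hZ
  have hZfin : Z.Finite := by
    refine Set.Finite.biUnion (Finset.finite_toSet _) fun a _ => ?_
    refine Set.Finite.subset (Finset.finite_toSet (Polynomial.nthRoots 2 (a : K)).toFinset) ?_
    intro z hz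
    simpa [Polynomial.mem_nthRoots (n := 2) two_pos] using hz
  have hle : adjoin ℚ T ≤ adjoin ℚ Z := by
    rw [adjoin_le_iff]
    intro t ht
    obtain ⟨e, he⟩ := hT t ht
    rcases gen_sqfree he with rfl | ⟨a, b, t', ha0, -, hsq, ht', rfl⟩
    · exact (adjoin ℚ Z).zero_mem
    · refine (adjoin ℚ Z).mul_mem ((adjoin ℚ Z).natCast_mem b) (subset_adjoin ℚ _ ?_)
      have hdvd : a ∣ N.factorial := by
        rw [← Nat.prod_primeFactors_of_squarefree hsq]
        refine Finset.prod_primes_dvd _ (fun q hq => (Nat.prime_of_mem_primeFactors hq).prime)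
          fun q hq => ?_
        have hqp := Nat.prime_of_mem_primeFactors hq
        obtain ⟨a', ha'⟩ := Nat.dvd_of_mem_primeFactors hq
        refine (Nat.Prime.dvd_factorial hqp).2 ?_
        by_contra hlt
        exact hcon q hqp (not_le.1 hlt) t' a' (not_dvd_of_sqfree hqp hsq ha')
          (by rw [ht', ha']; push_cast; ring)
      have := Nat.le_of_dvd (Nat.factorial_pos N) hdvd
      exact Set.mem_biUnion (x := a) (by simpa using Nat.lt_succ_of_le this) ht'
  rw [htop, top_le_iff] at hle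
  have : Finite Z := hZfin
  have hfd : FiniteDimensional ℚ (adjoin ℚ Z) :=
    finiteDimensional_adjoin fun x _ => Algebra.IsIntegral.isIntegral x
  rw [hle] at hfd
  exact hinf (IntermediateField.topEquiv (F := ℚ) (E := K)).toLinearEquiv.finiteDimensional

theorem multiquadratic (ι : K →+* ℝ) (T : Set K) (hT : ∀ t ∈ T, ∃ e : ℕ, t ^ 2 = e)
    (htop : adjoin ℚ T = ⊤) (hinf : ¬ FiniteDimensional ℚ K) (n : ℕ) :
    ∃ m : ℕ, ∃ a : Fin m → K, (∀ i, IsIntegral ℤ (a i)) ∧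
      ¬ ∃ b : Fin n → K, (∀ i, IsIntegral ℤ (b i)) ∧ ∑ i, a i ^ 2 = ∑ i, b i ^ 2 := by
  classical
  refine general ι (fun C m a => ?_) n
  have h1 : ∀ i, ∃ A : Finset K, (A : Set K) ⊆ T ∧ a i ∈ adjoin ℚ (A : Set K) := fun i =>
    exists_finset_of_mem_adjoin (by rw [htop]; trivial)
  choose A hA haA using h1
  have h2 : ∀ t : K, ∃ e : ℕ, t ∈ T → t ^ 2 = e := by
    intro t
    by_cases h : t ∈ T
    · obtain ⟨e, he⟩ := hT t h
      exact ⟨e, fun _ => he⟩
    · exact ⟨0, fun h' => absurd h' h⟩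
  choose e he using h2
  obtain ⟨p, hp, hNp, t₀, d, hd, ht₀⟩ := many_primes T hT htop hinf
    (2 + ⌈(2 * C) ^ 4⌉₊ + ∑ i, ∑ t ∈ A i, e t)
  have hp2 : p ≠ 2 := by omega
  obtain ⟨h3, h4⟩ := at_prime ι T hT htop hp hp2 hd ht₀
  refine ⟨adjoin ℚ (Tp K p), fun i => ?_, ⟨t₀, h3⟩, fun x hx hxF => le_trans ?_ (h4 x hx hxF)⟩
  · refine (adjoin_le_iff.2 ?_ : adjoin ℚ (A i : Set K) ≤ adjoin ℚ (Tp K p)) (haA i)
    intro t ht
    have h5 := he t (hA i ht)
    have h6 : e t ≤ ∑ t ∈ A i, e t := Finset.single_le_sum (fun _ _ => Nat.zero_le _) ht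
    have h7 : ∑ t ∈ A i, e t ≤ ∑ i, ∑ t ∈ A i, e t :=
      Finset.single_le_sum (f := fun i => ∑ t ∈ A i, e t) (fun _ _ => Nat.zero_le _) (Finset.mem_univ i)
    rcases Nat.eq_zero_or_pos (e t) with h0 | h0
    · rw [h0] at h5
      have : t = 0 := by simpa using h5
      rw [this]
      exact (adjoin ℚ (Tp K p)).zero_mem
    · exact subset_adjoin ℚ _ ⟨e t, fun h => absurd (Nat.le_of_dvd h0 h) (by omega), h5⟩
  · have h5 : (2 * C) ^ 4 ≤ (p : ℝ) := by
      refine (Nat.le_ceil _).trans ?_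
      exact_mod_cast (by omega : ⌈(2 * C) ^ 4⌉₊ ≤ p)
    rw [← rt_four (s := (p : ℝ)) (by positivity)] at h5
    have := le_of_pow_le_pow_left₀ (n := 4) (by norm_num) (rt_nonneg _) h5
    linarith

theorem main (S : Set ℕ)
    (hS : ¬ FiniteDimensional ℚ (adjoin ℚ ((fun d : ℕ => Real.sqrt (d : ℝ)) '' S))) (n : ℕ) :
    ∃ m : ℕ, ∃ a : Fin m → ℝ,
      (∀ i, a i ∈ adjoin ℚ ((fun d : ℕ => Real.sqrt (d : ℝ)) '' S) ∧ IsIntegral ℤ (a i)) ∧
      ¬ ∃ b : Fin n → ℝ,
        (∀ i, b i ∈ adjoin ℚ ((fun d : ℕ => Real.sqrt (d : ℝ)) '' S) ∧ IsIntegral ℤ (b i)) ∧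
        ∑ i, (a i) ^ 2 = ∑ i, (b i) ^ 2 := by
  set S' : Set ℝ := (fun d : ℕ => Real.sqrt (d : ℝ)) '' S with hS'
  set L := adjoin ℚ S' with hL
  let T : Set L := Subtype.val ⁻¹' S'
  have hT : ∀ t ∈ T, ∃ e : ℕ, t ^ 2 = e := by
    rintro t ⟨e, -, he⟩
    refine ⟨e, Subtype.ext ?_⟩
    have he' : Real.sqrt (e : ℝ) = (t : ℝ) := he
    push_cast
    rw [← he', Real.sq_sqrt (Nat.cast_nonneg e)]
  have htop : adjoin ℚ T = ⊤ := by
    apply lift_injective L
    refine (lift_adjoin ℚ L T).trans (Eq.trans ?_ (lift_top ℚ L).symm)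
    rw [Set.image_preimage_eq_of_subset]
    rw [Subtype.range_coe]
    exact subset_adjoin ℚ S'
  have hsp : ∀ t ∈ T, IsIntegral ℚ t ∧ ((minpoly ℚ t).map (algebraMap ℚ L)).Splits := by
    intro t ht
    obtain ⟨e, he⟩ := hT t ht
    have hint : IsIntegral ℚ t := by
      refine IsIntegral.of_pow (n := 2) two_pos ?_
      rw [he]
      simpa using isIntegral_algebraMap (R := ℚ) (A := L) (x := (e : ℚ))
    refine ⟨hint, ?_⟩
    have hdvd : minpoly ℚ t ∣ Polynomial.X ^ 2 - Polynomial.C (e : ℚ) :=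
      minpoly.dvd ℚ t (by simp [he])
    have hfac : (Polynomial.X ^ 2 - Polynomial.C (e : ℚ)).map (algebraMap ℚ L)
        = (Polynomial.X - Polynomial.C t) * (Polynomial.X - Polynomial.C (-t)) := by
      have : (Polynomial.C (algebraMap ℚ L (e : ℚ)) : Polynomial L) = Polynomial.C t ^ 2 := by
        rw [← map_pow, he]; simp
      rw [Polynomial.map_sub, Polynomial.map_pow, Polynomial.map_X, Polynomial.map_C, this, map_neg]
      ring
    refine Polynomial.Splits.of_dvd (g := (Polynomial.X ^ 2 - Polynomial.C (e : ℚ)).map (algebraMap ℚ L))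
      ?_ ?_ (Polynomial.map_dvd _ hdvd)
    · rw [hfac]
      exact (Polynomial.Splits.X_sub_C t).mul (Polynomial.Splits.X_sub_C (-t))
    · rw [hfac]
      exact mul_ne_zero (Polynomial.X_sub_C_ne_zero _) (Polynomial.X_sub_C_ne_zero _)
  have halg : Algebra.IsAlgebraic ℚ L := ⟨fun x => by
    have hx : x ∈ adjoin ℚ T := by rw [htop]; trivial
    exact isAlgebraic_iff.1 ((isAlgebraic_adjoin fun t ht => (hsp t ht).1).isAlgebraic ⟨x, hx⟩)⟩
  have hnormal : Normal ℚ L := normal_iff.2 fun x =>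
    ⟨Algebra.IsIntegral.isIntegral x, splits_of_mem_adjoin ℚ L hsp (by rw [htop]; trivial)⟩
  have hgal : IsGalois ℚ L := {}
  obtain ⟨m, a, ha, hna⟩ := multiquadratic (K := L) (algebraMap L ℝ) T hT htop hS n
  have hiff : ∀ x : L, IsIntegral ℤ (x : ℝ) ↔ IsIntegral ℤ x := fun x =>
    isIntegral_algebraMap_iff (R := ℤ) (A := L) (B := ℝ) (x := x) Subtype.val_injective
  refine ⟨m, fun i => (a i : ℝ), fun i => ⟨(a i).2, (hiff _).2 (ha i)⟩, ?_⟩
  rintro ⟨b, hb, hsum⟩
  refine hna ⟨fun i => ⟨b i, (hb i).1⟩, fun i => (hiff _).1 (hb i).2, Subtype.ext ?_⟩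
  push_cast
  exact hsum

end Pool.Agent.H969Z.Pyth
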