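import Mathlib

set_option autoImplicit false

namespace Pool.Agent.H969Z.RatPsd

open Matrix

/-- Vertices: `0, 1` (a, a'), `2, 3` (b, b'), `4` (m), `5` (c), `6` (e). -/
def edges : Finset (Fin 7 × Fin 7) :=
  {(0, 2), (0, 3), (1, 2), (1, 3), (0, 4), (1, 4), (2, 4), (3, 4), (0, 5), (1, 5), (2, 6), (3, 6)}

/-- The graph. -/
def G : SimpleGraph (Fin 7) where
  Adj i j := (i, j) ∈ edges ∨ (j, i) ∈ edges
  symm := ⟨fun _ _ h => h.symm⟩
  loopless := ⟨by decide⟩

/-- The rational data. -/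
def xq : Fin 7 → Fin 7 → ℚ :=
  ![![1, 0, 12/125, 12/125, 3/5, 0, 0],
    ![0, 1, 12/125, 12/125, 3/5, 72/125, 0],
    ![12/125, 12/125, 1, 0, 4/5, 0, 0],
    ![12/125, 12/125, 0, 1, 4/5, 0, 72/125],
    ![3/5, 3/5, 4/5, 4/5, 1, 0, 0],
    ![0, 72/125, 0, 0, 0, 1, 0],
    ![0, 0, 0, 72/125, 0, 0, 1]]

/-- Coordinates of the seven vectors in an orthogonal basis. -/
noncomputable def W (s : ℝ) : Matrix (Fin 7) (Fin 4) ℝ :=
  !![3/5, 1, 1, 0;
     3/5, 1, -1, 0;
     4/5, -(s - 35) / 96, 0, 1;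
     4/5, -(s - 35) / 96, 0, -1;
     1, 0, 0, 0;
     3/5 * (125 - s) / 72, (125 - s) / 72, -(125 + s) / 72, 0;
     4/5 * (125 - s) / 72, -(s - 35) / 96 * (125 - s) / 72, 0, -(125 + s) / 72]

/-- Squared lengths of the basis vectors. -/
noncomputable def D (s : ℝ) : Fin 4 → ℝ := ![1, (35 + s) / 250, (125 - s) / 250, (125 - s) / 250]

lemma s_sq : Real.sqrt 10441 ^ 2 = 10441 := Real.sq_sqrt (by norm_num)

lemma s_lt : Real.sqrt 10441 < 125 := by
  rw [Real.sqrt_lt' (by norm_num)]; norm_num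

lemma s_gt : 35 < Real.sqrt 10441 := by
  rw [Real.lt_sqrt (by norm_num)]; norm_num

lemma entry (s : ℝ) (i j : Fin 7) :
    (W s * diagonal (D s) * (W s)ᴴ) i j = ∑ k, W s i k * D s k * W s j k := by
  simp [Matrix.mul_apply, Matrix.diagonal_apply]

theorem real_completion :
    ∃ X : Matrix (Fin 7) (Fin 7) ℝ, X.PosSemidef ∧ (∀ i, X i i = 1) ∧
      ∀ i j, G.Adj i j → X i j = (xq i j : ℝ) := by
  have h2 := s_sq
  have hl := s_lt
  have hg := s_gt
  set s := Real.sqrt 10441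
  have h3 : s ^ 3 = 10441 * s := by rw [pow_succ, h2]
  have h4 : s ^ 4 = 10441 * 10441 := by rw [show s ^ 4 = s ^ 2 * s ^ 2 by ring, h2]
  have h5 : s ^ 5 = 10441 * 10441 * s := by rw [pow_succ, h4]
  refine ⟨W s * diagonal (D s) * (W s)ᴴ, ?_, ?_, ?_⟩
  · refine PosSemidef.mul_mul_conjTranspose_same (PosSemidef.diagonal ?_) _
    intro k
    fin_cases k <;> simp [D] <;> linarith
  · intro i
    rw [entry]
    fin_cases i <;> simp [W, D, Fin.sum_univ_four] <;> ring_nf <;>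
      simp only [h2, h3, h4, h5] <;> ring
  · have key : ∀ p ∈ edges, (∑ k, W s p.1 k * D s k * W s p.2 k = (xq p.1 p.2 : ℝ)) ∧
        xq p.2 p.1 = xq p.1 p.2 := by
      intro p hp
      simp only [edges, Finset.mem_insert, Finset.mem_singleton] at hp
      rcases hp with rfl | rfl | rfl | rfl | rfl | rfl | rfl | rfl | rfl | rfl | rfl | rfl <;>
        refine ⟨?_, rfl⟩ <;> simp [W, D, xq, Fin.sum_univ_four] <;> ring_nf <;>
        simp only [h2, h3, h4, h5] <;> ring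
    intro i j hij
    rw [entry]
    rcases hij with h | h
    · exact (key _ h).1
    · have := key _ h
      simp only at this
      rw [this.2, ← this.1]
      exact Finset.sum_congr rfl fun k _ => by ring

theorem no_rational :
    ¬ ∃ Y : Matrix (Fin 7) (Fin 7) ℚ,
      (Y.map (fun q : ℚ => (q : ℝ))).PosSemidef ∧ (∀ i, Y i i = 1) ∧
        ∀ i j, G.Adj i j → Y i j = xq i j := by
  rintro ⟨Y, hY, hd, he⟩
  have h2 := s_sq
  have hl := s_lt
  have hg := s_gt
  set s := Real.sqrt 10441 with hs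
  have hsym : ∀ i j, (Y j i : ℝ) = Y i j := fun i j => by
    have := congrFun (congrFun hY.1 i) j
    simpa using this
  have hq : ∀ z : Fin 7 → ℝ, 0 ≤ ∑ i, z i * ∑ j, (Y i j : ℝ) * z j := fun z => by
    have := hY.dotProduct_mulVec_nonneg z
    simpa [dotProduct, mulVec] using this
  have hd' : ∀ i, (Y i i : ℝ) = 1 := fun i => by rw [hd i]; simp
  have he' : ∀ i j, (i, j) ∈ edges → (Y i j : ℝ) = xq i j := fun i j h => by
    rw [he i j (Or.inl h)]
  have e02 := he' 0 2 (by decide)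
  have e03 := he' 0 3 (by decide)
  have e12 := he' 1 2 (by decide)
  have e13 := he' 1 3 (by decide)
  have e04 := he' 0 4 (by decide)
  have e14 := he' 1 4 (by decide)
  have e24 := he' 2 4 (by decide)
  have e34 := he' 3 4 (by decide)
  have e05 := he' 0 5 (by decide)
  have e15 := he' 1 5 (by decide)
  have e26 := he' 2 6 (by decide)
  have e36 := he' 3 6 (by decide)
  simp [xq] at e02 e03 e12 e13 e04 e14 e24 e34 e05 e15 e26 e36
  have e05' : (Y 0 5 : ℝ) = 0 := by exact_mod_cast e05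
  have e26' : (Y 2 6 : ℝ) = 0 := by exact_mod_cast e26
  set x : ℝ := ((Y 0 1 : ℚ) : ℝ) with hx
  set y : ℝ := ((Y 2 3 : ℚ) : ℝ) with hy
  have q1 := hq ![-x, 1, 0, 0, 0, -72 / 125, 0]
  have q2 := hq ![0, 0, -y, 1, 0, 0, -72 / 125]
  have q3 := hq ![(s - 35) / 96, (s - 35) / 96, 1, 1, -(6 / 5 * (s - 35) / 96 + 8 / 5), 0, 0]
  simp only [Fin.sum_univ_seven, Matrix.cons_val, hd', hsym 0 1, hsym 0 2, hsym 0 3, hsym 0 4,
    hsym 0 5, hsym 1 2, hsym 1 3, hsym 1 4, hsym 1 5, hsym 2 3, hsym 2 4, hsym 2 6, hsym 3 4,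
    hsym 3 6, e02, e03, e12, e13, e04, e14, e24, e34, e05', e15, e26', e36, zero_mul, mul_zero,
    add_zero, zero_add, ← hx, ← hy] at q1 q2 q3
  have hx2 : (125 * x) ^ 2 ≤ s ^ 2 := by rw [h2]; nlinarith
  have hy2 : (125 * y) ^ 2 ≤ s ^ 2 := by rw [h2]; nlinarith
  have hxs : 125 * x ≤ s := (abs_le_of_sq_le_sq' hx2 (by linarith)).2
  have hys : 125 * y ≤ s := (abs_le_of_sq_le_sq' hy2 (by linarith)).2
  have h3 : s ^ 3 = 10441 * s := by rw [pow_succ, h2]
  have key : 0 ≤ (125 * y - s) + ((s - 35) / 96) ^ 2 * (125 * x - s) := by nlinarith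
  have hneg : ((s - 35) / 96) ^ 2 * (125 * x - s) ≤ 0 :=
    mul_nonpos_of_nonneg_of_nonpos (sq_nonneg _) (by linarith)
  have hyeq : s = 125 * y := by linarith
  have hirr : Irrational (Real.sqrt (10441 : ℕ)) := by
    rw [irrational_sqrt_natCast_iff]
    rintro ⟨r, hr⟩
    rcases le_or_gt r 102 with h | h <;> nlinarith
  apply hirr
  refine ⟨125 * Y 2 3, ?_⟩
  push_cast
  rw [← hy, ← hyeq]

end Pool.Agent.H969Z.RatPsd
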